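import Pool.Agent.Lib_MP_0bab5c_x.XGraphC

/-!
# Full twins: the degree of a vertex that has a twin for all of its neighbourhood

`B` a trimmed cut between `x` and `z`, where `z` has (up to `q w_l`) at least as many neighbours as
`x` in every cell `l`. Then `|nb x| ≤ K + requests to poor cells + error`. The poor cells can pay
all requests. So the sum of the degrees is at most `(1 + 5 η) k |V|` plus the contribution of the
vertices without such a twin.
-/

namespace LCX.Full

open Finset LCX
open scoped Classical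

variable {V J U : Type} [Fintype V] [Fintype J] [Fintype U]

theorem mem_nb' {G : SimpleGraph V} {v a : V} : a ∈ nb G v ↔ G.Adj v a := by
  simp [nb]

/-- splitting a set into cells and hubs -/
theorem set_split {G : SimpleGraph V} {k er s : ℝ} {m : ℕ} {E : Fin m → Finset V}
    {cell : J → Finset V} {hm : J → Fin m} {phi : U → V} {adj : J → J → Prop}
    {hadj : U → J → Prop} (h : Red G k er s E cell hm phi adj hadj) (X : Finset V) :
    (X.card : ℝ) = ∑ l, ((X ∩ cell l).card : ℝ) +
      ((univ.filter (fun u : U => phi u ∈ X)).card : ℝ) := by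
  have h1 := sum_split h (fun v => if v ∈ X then (1 : ℝ) else 0)
  have h2 : ∑ v, (if v ∈ X then (1 : ℝ) else 0) = (X.card : ℝ) := by
    rw [sum_boole]
    congr 2
    ext v
    simp
  have h3 : ∀ l, ∑ v ∈ cell l, (if v ∈ X then (1 : ℝ) else 0) = ((X ∩ cell l).card : ℝ) := by
    intro l
    rw [sum_boole]
    congr 2
    ext v
    simp [and_comm]
  have h4 : ∑ u, (if phi u ∈ X then (1 : ℝ) else 0) =
      ((univ.filter (fun u : U => phi u ∈ X)).card : ℝ) := by
    rw [sum_boole]
  rw [h2, h4] at h1
  simp only [h3] at h1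
  exact h1

/-- the neighbours of `x` outside the homes are in the boundary of a trimmed cut -/
theorem hub_nb {G : SimpleGraph V} {k er s : ℝ} {m : ℕ} {E : Fin m → Finset V}
    {cell : J → Finset V} {hm : J → Fin m} {phi : U → V} {adj : J → J → Prop}
    {hadj : U → J → Prop} (h : Red G k er s E cell hm phi adj hadj) {K L T : ℝ} {x z : V}
    {B : Finset V} (hB : TrimCut G E K L T x z B) {u : U} (hu : phi u ∈ nb G x) :
    phi u ∈ bd G B := by
  have hu' : G.Adj x (phi u) := mem_nb'.1 hu
  have hne : phi u ≠ x := fun he => G.loopless.irrefl x (by rw [he] at hu'; exact hu')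
  unfold bd
  rw [mem_filter]
  refine ⟨mem_univ _, ?_, x, hB.1.1, hu'⟩
  intro hBu
  obtain ⟨i, hi⟩ := hB.2.1 _ hBu hne
  exact (h.hub (phi u)).1 ⟨u, rfl⟩ i hi

/-- the request to a cell that is not split -/
theorem rq_small {G : SimpleGraph V} {cell : J → Finset V} {m : ℕ} {E : Fin m → Finset V}
    {K L T : ℝ} {x z : V} {B : Finset V} (hB : TrimCut G E K L T x z B) {s q : ℝ} (hs : 0 ≤ s)
    (hq : 0 ≤ q) (l : J)
    (hz : ((nb G x ∩ cell l).card : ℝ) ≤ ((nb G z ∩ cell l).card : ℝ) + q * wt cell l)
    (hl : ((B ∩ cell l).card : ℝ) < s * wt cell l ∨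
      ((cell l \ (B ∪ bd G B)).card : ℝ) < s * wt cell l) :
    rq G cell x B l ≤ (s + q) * (if (nb G x ∩ cell l).Nonempty then wt cell l else 0) +
      (if x ∈ cell l then 1 else 0) := by
  have hwl : 0 ≤ wt cell l := Nat.cast_nonneg _
  have hx0 : (0 : ℝ) ≤ if x ∈ cell l then 1 else 0 := by split_ifs <;> norm_num
  have hS0 : (0 : ℝ) ≤ ((bd G B ∩ cell l).card : ℝ) := Nat.cast_nonneg _
  by_cases hne : (nb G x ∩ cell l).Nonempty
  · rw [if_pos hne]
    have hsq : 0 ≤ (s + q) * wt cell l := mul_nonneg (by linarith) hwl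
    have hqw : 0 ≤ q * wt cell l := mul_nonneg hq hwl
    have hsw : 0 ≤ s * wt cell l := mul_nonneg hs hwl
    unfold rq
    apply max_le (by linarith)
    rcases hl with h1 | h1
    · have h2 : ((nb G x ∩ cell l).card : ℝ) ≤ ((B ∩ cell l).card : ℝ) +
          ((bd G B ∩ cell l).card : ℝ) := by
        have e1 : nb G x ∩ cell l ⊆ (B ∩ cell l) ∪ (bd G B ∩ cell l) := by
          rw [← union_inter_distrib_right]
          apply inter_subset_inter_right
          intro v hv
          rw [mem_union]
          by_cases hvB : v ∈ B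
          · exact Or.inl hvB
          · right
            unfold bd
            rw [mem_filter]
            exact ⟨mem_univ _, hvB, x, hB.1.1, mem_nb'.1 hv⟩
        exact_mod_cast (card_le_card e1).trans (card_union_le _ _)
      linarith
    · have h2 : nb G z ∩ cell l ⊆ (bd G B ∩ cell l) ∪ (cell l \ (B ∪ bd G B)) ∪
          (({x} : Finset V).filter fun v => v ∈ cell l) := by
        intro v hv
        rw [mem_inter] at hv
        rw [mem_union, mem_union, mem_inter, mem_sdiff, mem_union, mem_filter, mem_singleton]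
        by_cases hvB : v ∈ B
        · exact Or.inr ⟨hB.1.2.2.1 v hvB (mem_nb'.1 hv.1).symm, hv.2⟩
        · by_cases hvS : v ∈ bd G B
          · exact Or.inl (Or.inl ⟨hvS, hv.2⟩)
          · exact Or.inl (Or.inr ⟨hv.2, fun h' => h'.elim hvB hvS⟩)
      have h3 : ((nb G z ∩ cell l).card : ℝ) ≤ ((bd G B ∩ cell l).card : ℝ) +
          ((cell l \ (B ∪ bd G B)).card : ℝ) +
          ((({x} : Finset V).filter fun v => v ∈ cell l).card : ℝ) := by
        exact_mod_cast (card_le_card h2).trans ((card_union_le _ _).trans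
          (Nat.add_le_add_right (card_union_le _ _) _))
      have h4 : ((({x} : Finset V).filter fun v => v ∈ cell l).card : ℝ) =
          if x ∈ cell l then 1 else 0 := by
        rw [filter_singleton]
        split_ifs
        · rw [card_singleton]
          norm_num
        · rw [card_empty]
          norm_num
      rw [h4] at h3
      linarith
  · have h0 : ((nb G x ∩ cell l).card : ℝ) = 0 := by
      rw [not_nonempty_iff_eq_empty] at hne
      rw [hne, card_empty]
      norm_num
    unfold rq
    rw [h0, if_neg hne, mul_zero, zero_add]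
    apply max_le hx0
    linarith

/-- the degree of a vertex with a full twin -/
theorem twin_deg {G : SimpleGraph V} {k er s : ℝ} {m : ℕ} {E : Fin m → Finset V}
    {cell : J → Finset V} {hm : J → Fin m} {phi : U → V} {adj : J → J → Prop}
    {hadj : U → J → Prop} (h : Red G k er s E cell hm phi adj hadj) (hs : 0 ≤ s)
    {K L T : ℝ} {x z : V} {B : Finset V} (hB : TrimCut G E K L T x z B) {q : ℝ} (hq : 0 ≤ q)
    (poor : J → Prop)
    (hpoor : ∀ j, ¬ poor j → ((B ∩ cell j).card : ℝ) < s * wt cell j ∨
      ((cell j \ (B ∪ bd G B)).card : ℝ) < s * wt cell j)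
    (hz : ∀ l, ((nb G x ∩ cell l).card : ℝ) ≤ ((nb G z ∩ cell l).card : ℝ) + q * wt cell l) :
    ((nb G x).card : ℝ) ≤ K + ∑ l ∈ univ.filter (fun l => poor l), rq G cell x B l +
      ((s + q) * metw cell (nb G x) + 1) := by
  have h1 := set_split h (nb G x)
  have h2 := set_split h (bd G B)
  have hK : ((bd G B).card : ℝ) ≤ K := hB.1.2.2.2.1
  have h3 : ((univ.filter (fun u : U => phi u ∈ nb G x)).card : ℝ) ≤
      ((univ.filter (fun u : U => phi u ∈ bd G B)).card : ℝ) := by
    have : univ.filter (fun u : U => phi u ∈ nb G x) ⊆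
        univ.filter (fun u : U => phi u ∈ bd G B) := by
      intro u hu
      rw [mem_filter] at hu ⊢
      exact ⟨mem_univ _, hub_nb h hB hu.2⟩
    exact_mod_cast card_le_card this
  have h4 : ∑ l, ((nb G x ∩ cell l).card : ℝ) ≤ ∑ l, ((bd G B ∩ cell l).card : ℝ) +
      ∑ l, rq G cell x B l := by
    rw [← sum_add_distrib]
    refine sum_le_sum fun l _ => ?_
    have : ((nb G x ∩ cell l).card : ℝ) - ((bd G B ∩ cell l).card : ℝ) ≤ rq G cell x B l :=
      le_max_right _ _
    linarith
  have h5 : ∑ l, rq G cell x B l = ∑ l ∈ univ.filter (fun l => poor l), rq G cell x B l +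
      ∑ l ∈ univ.filter (fun l => ¬ poor l), rq G cell x B l :=
    (sum_filter_add_sum_filter_not _ _ _).symm
  have h6 : ∑ l ∈ univ.filter (fun l => ¬ poor l), rq G cell x B l ≤
      (s + q) * metw cell (nb G x) + 1 := by
    have e1 : ∑ l ∈ univ.filter (fun l => ¬ poor l), rq G cell x B l ≤
        ∑ l ∈ univ.filter (fun l => ¬ poor l),
          ((s + q) * (if (nb G x ∩ cell l).Nonempty then wt cell l else 0) +
            (if x ∈ cell l then 1 else 0)) :=
      sum_le_sum fun l hl => rq_small hB hs hq l (hz l) (hpoor l (mem_filter.1 hl).2)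
    have e2 : ∑ l ∈ univ.filter (fun l => ¬ poor l),
          ((s + q) * (if (nb G x ∩ cell l).Nonempty then wt cell l else 0) +
            (if x ∈ cell l then (1 : ℝ) else 0)) ≤
        ∑ l, ((s + q) * (if (nb G x ∩ cell l).Nonempty then wt cell l else 0) +
            (if x ∈ cell l then (1 : ℝ) else 0)) := by
      apply sum_le_sum_of_subset_of_nonneg (subset_univ _)
      intro l _ _
      have hw : 0 ≤ wt cell l := Nat.cast_nonneg _
      apply add_nonneg
      · apply mul_nonneg (by linarith)
        split_ifs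
        · exact hw
        · exact le_rfl
      · split_ifs <;> norm_num
    have e3 : ∑ l, (if x ∈ cell l then (1 : ℝ) else 0) ≤ 1 := by
      rw [sum_boole]
      have : (univ.filter fun l => x ∈ cell l).card ≤ 1 := by
        rw [card_le_one]
        intro a ha b hb
        rw [mem_filter] at ha hb
        by_contra hab
        exact disjoint_left.1 (h.cdisj a b hab) ha.2 hb.2
      exact_mod_cast this
    have e4 : ∑ l, ((s + q) * (if (nb G x ∩ cell l).Nonempty then wt cell l else 0) +
            (if x ∈ cell l then (1 : ℝ) else 0)) = (s + q) * metw cell (nb G x) +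
        ∑ l, (if x ∈ cell l then (1 : ℝ) else 0) := by
      unfold metw
      rw [sum_add_distrib, ← mul_sum, ← sum_filter]
    rw [e4] at e2
    linarith
  linarith

/-- a cell with many neighbours is not split by a cut -/
theorem not_split {G P : SimpleGraph V} (hGP : G ≤ P) {k C d0 e1 er s eta : ℝ} {m : ℕ}
    {E : Fin m → Finset V} (hP : Clean P k C d0 e1 E) {cell : J → Finset V} {hm : J → Fin m}
    {phi : U → V} {adj : J → J → Prop} {hadj : U → J → Prop}
    (h : Red G k er s E cell hm phi adj hadj)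
    (hnear : ∀ u j, hadj u j → phi u ∈ cn P E (hm j)) (hk : 0 < k) (hC : 0 ≤ C)
    (hs1 : s ≤ 1) (her0 : 0 ≤ er) (her1 : er ≤ 1 / 4) (her2 : er * (4 * (C + 1) + 2) ≤ eta)
    {K : ℝ} (hK : K ≤ (1 + eta) * k) {B : Finset V} (hB : ((bd G B).card : ℝ) ≤ K) (j : J)
    (hj : ¬ sig cell adj hadj j ≤ (1 + 2 * eta) * k) :
    ((B ∩ cell j).card : ℝ) < s * wt cell j ∨
      ((cell j \ (B ∪ bd G B)).card : ℝ) < s * wt cell j := by
  by_contra hcon
  push Not at hcon
  obtain ⟨h1, h2⟩ := hcon
  apply hj
  have hsp := split_small h her0 B j h1 h2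
  have hsig := sig_le hGP hP h hnear hk hC hs1 her1 j
  have h3 : 2 * er * sig cell adj hadj j ≤ 2 * er * (2 * (C + 1) * k) :=
    mul_le_mul_of_nonneg_left hsig (by linarith)
  have h4 := mul_le_mul_of_nonneg_right her2 hk.le
  have h5 : 2 * er * (2 * (C + 1) * k) + 2 * er * k = er * (4 * (C + 1) + 2) * k := by ring
  have h6 : (1 + 2 * eta) * k = (1 + eta) * k + eta * k := by ring
  linarith

/-- The poor cells can pay. -/
theorem solvent {G : SimpleGraph V} {k er s : ℝ} {m : ℕ} {E : Fin m → Finset V}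
    {cell : J → Finset V} {hm : J → Fin m} {phi : U → V} {adj : J → J → Prop}
    {hadj : U → J → Prop} (h : Red G k er s E cell hm phi adj hadj) {q : ℝ}
    (F : V → J → ℝ) (l : J)
    (hF : ∀ x, F x l ≤ (1 + q) * wt cell l)
    (hF0 : ∀ x, nb G x ∩ cell l = ∅ → F x l ≤ 0) :
    ∑ x, F x l ≤ (1 + q) * wt cell l * sig cell adj hadj l := by
  rw [sum_split h]
  have h1 : ∀ j, ∑ x ∈ cell j, F x l ≤ if adj l j then (1 + q) * wt cell l * wt cell j else 0 := by
    intro j
    split_ifs with hj
    · refine (sum_le_card_nsmul _ _ ((1 + q) * wt cell l) (fun x _ => hF x)).trans ?_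
      rw [nsmul_eq_mul]
      unfold wt
      linarith
    · apply sum_nonpos
      intro x hx
      apply hF0
      rw [eq_empty_iff_forall_notMem]
      intro y hy
      rw [mem_inter] at hy
      exact hj (h.symm _ _ (h.ex j l x hx y hy.2 (mem_nb'.1 hy.1)))
  have h2 : ∀ u, F (phi u) l ≤ if hadj u l then (1 + q) * wt cell l else 0 := by
    intro u
    split_ifs with hj
    · exact hF _
    · apply hF0
      rw [eq_empty_iff_forall_notMem]
      intro y hy
      rw [mem_inter] at hy
      exact hj (h.hex u l y hy.2 (mem_nb'.1 hy.1))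
  have h3 := sum_le_sum (fun j (_ : j ∈ (univ : Finset J)) => h1 j)
  have h4 := sum_le_sum (fun u (_ : u ∈ (univ : Finset U)) => h2 u)
  rw [← sum_filter, ← mul_sum] at h3
  rw [← sum_filter, sum_const, nsmul_eq_mul] at h4
  unfold sig
  rw [mul_add]
  refine add_le_add h3 (h4.trans (le_of_eq ?_))
  ring

/-- a vertex with a full twin -/
def FT (G : SimpleGraph V) {m : ℕ} (E : Fin m → Finset V) (cell : J → Finset V)
    (K L T q : ℝ) (x : V) : Prop :=
  ∃ z B, TrimCut G E K L T x z B ∧
    ∀ l, ((nb G x ∩ cell l).card : ℝ) ≤ ((nb G z ∩ cell l).card : ℝ) + q * wt cell l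

/-- requests -/
noncomputable def rr (G : SimpleGraph V) {m : ℕ} (E : Fin m → Finset V) (cell : J → Finset V)
    (K L T q : ℝ) (x : V) (l : J) : ℝ :=
  if h : FT G E cell K L T q x then rq G cell x h.choose_spec.choose l else 0

theorem rr_nonneg (G : SimpleGraph V) {m : ℕ} (E : Fin m → Finset V) (cell : J → Finset V)
    (K L T q : ℝ) (x : V) (l : J) : 0 ≤ rr G E cell K L T q x l := by
  unfold rr
  split_ifs
  · exact le_max_left _ _
  · exact le_rfl

theorem rr_le (G : SimpleGraph V) {m : ℕ} (E : Fin m → Finset V) (cell : J → Finset V)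
    (K L T : ℝ) {q : ℝ} (hq : 0 ≤ q) (x : V) (l : J) :
    ((nb G x ∩ cell l).card : ℝ) + rr G E cell K L T q x l ≤ (1 + q) * wt cell l := by
  unfold rr
  split_ifs with h
  · exact rq_le h.choose_spec.choose_spec.1 hq l (h.choose_spec.choose_spec.2 l)
  · have h1 : ((nb G x ∩ cell l).card : ℝ) ≤ wt cell l := by
      unfold wt
      exact_mod_cast card_le_card inter_subset_right
    have h2 : 0 ≤ wt cell l := Nat.cast_nonneg _
    nlinarith [mul_nonneg hq h2]

theorem rr_zero (G : SimpleGraph V) {m : ℕ} (E : Fin m → Finset V) (cell : J → Finset V)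
    (K L T q : ℝ) (x : V) (l : J) (h : nb G x ∩ cell l = ∅) :
    ((nb G x ∩ cell l).card : ℝ) + rr G E cell K L T q x l ≤ 0 := by
  rw [h, card_empty, Nat.cast_zero, zero_add]
  unfold rr
  split_ifs
  · unfold rq
    rw [h, card_empty, Nat.cast_zero]
    apply max_le le_rfl
    exact sub_nonpos.2 (Nat.cast_nonneg _)
  · exact le_rfl

/-- The sum of all degrees. -/
theorem full_bound {G P : SimpleGraph V} (hGP : G ≤ P) {k C d0 e1 er s q eta : ℝ} {m : ℕ}
    {E : Fin m → Finset V} (hP : Clean P k C d0 e1 E) {cell : J → Finset V} {hm : J → Fin m}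
    {phi : U → V} {adj : J → J → Prop} {hadj : U → J → Prop}
    (h : Red G k er s E cell hm phi adj hadj)
    (hnear : ∀ u j, hadj u j → phi u ∈ cn P E (hm j)) (hk : 1 ≤ k) (hC : 1 ≤ C) (he1 : 0 < e1)
    (hs0 : 0 ≤ s) (hs1 : s ≤ 1) (her0 : 0 ≤ er) (her1 : er ≤ 1 / 4)
    (her2 : er * (4 * (C + 1) + 2) ≤ eta) (hq0 : 0 ≤ q) (heta1 : eta ≤ 1)
    (hq : q ≤ eta) (hsq : (s + q) * ((C + 1) / e1 * C) ≤ eta) (hek : 1 ≤ eta * k)
    {K L T : ℝ} (hK : K ≤ (1 + eta) * k) (ne : ℕ)
    (hne : (univ.filter (fun x => ¬ FT G E cell K L T q x)).card ≤ ne) :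
    ∑ x, ((nb G x).card : ℝ) ≤ (1 + 5 * eta) * k * (Fintype.card V : ℝ) + (C + 1) * k * ne := by
  have hk0 : 0 < k := by linarith
  have heta0 : 0 ≤ eta := hq0.trans hq
  set poor : J → Prop := fun j => sig cell adj hadj j ≤ (1 + 2 * eta) * k with hpoor
  set R : V → J → ℝ := fun x l => rr G E cell K L T q x l with hR
  have hR0 : ∀ x l, 0 ≤ R x l := fun x l => rr_nonneg G E cell K L T q x l
  -- poor cells
  have h1 : ∀ l, poor l → ∑ y ∈ cell l, ((nb G y).card : ℝ) + ∑ x, R x l ≤
      (1 + 5 * eta) * k * wt cell l := by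
    intro l hl
    have e1' := solvent h (fun x l => ((nb G x ∩ cell l).card : ℝ) + R x l) l
      (fun x => rr_le G E cell K L T hq0 x l) (fun x hx => rr_zero G E cell K L T q x l hx)
    rw [sum_add_distrib] at e1'
    have e2 : ∑ x, ((nb G x ∩ cell l).card : ℝ) = ∑ y ∈ cell l, ((nb G y).card : ℝ) := by
      simp only [nbi_card]
      rw [sum_comm]
      refine sum_congr rfl (fun y _ => ?_)
      have := nbi_card G univ y
      rw [inter_univ] at this
      rw [this]
      exact sum_congr rfl (fun x _ => by rw [G.adj_comm])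
    rw [e2] at e1'
    have hw : 0 ≤ wt cell l := Nat.cast_nonneg _
    have e3 : (1 + q) * wt cell l * sig cell adj hadj l ≤
        (1 + q) * wt cell l * ((1 + 2 * eta) * k) :=
      mul_le_mul_of_nonneg_left hl (by positivity)
    have e4 : (1 + q) * (1 + 2 * eta) ≤ 1 + 5 * eta := by nlinarith
    have e5 : (1 + q) * (1 + 2 * eta) * (k * wt cell l) ≤ (1 + 5 * eta) * (k * wt cell l) :=
      mul_le_mul_of_nonneg_right e4 (by positivity)
    linarith
  -- all other vertices
  have h2 : ∀ x, ((nb G x).card : ℝ) ≤ (1 + 5 * eta) * k +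
      ∑ l ∈ univ.filter (fun l => poor l), R x l +
      (if FT G E cell K L T q x then 0 else (C + 1) * k) := by
    intro x
    by_cases hx : FT G E cell K L T q x
    · rw [if_pos hx]
      have e1' := twin_deg h hs0 hx.choose_spec.choose_spec.1 hq0 poor (fun j hj =>
        not_split hGP hP h hnear hk0 (by linarith) hs1 her0 her1 her2 hK
          (hx.choose_spec.choose_spec.1).1.2.2.2.1 j hj) hx.choose_spec.choose_spec.2
      have e2 : ∀ l, R x l = rq G cell x hx.choose_spec.choose l := by
        intro l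
        rw [hR]
        simp only
        unfold rr
        rw [dif_pos hx]
      simp only [e2]
      have e3 := metw_le hGP hP h hk0 (by linarith) he1 x
      have e4 : (s + q) * metw cell (nb G x) ≤ (s + q) * ((C + 1) / e1 * C * k) :=
        mul_le_mul_of_nonneg_left e3 (by linarith)
      have e5 := mul_le_mul_of_nonneg_right hsq hk0.le
      have e6 : (s + q) * ((C + 1) / e1 * C * k) = (s + q) * ((C + 1) / e1 * C) * k := by ring
      nlinarith
    · rw [if_neg hx]
      have e1' : ((nb G x).card : ℝ) ≤ (C + 1) * k := by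
        refine le_trans ?_ (hP.deg x)
        exact_mod_cast card_le_card (nbG_le hGP x)
      have e2 : 0 ≤ ∑ l ∈ univ.filter (fun l => poor l), R x l := sum_nonneg fun l _ => hR0 x l
      have e3 : 0 ≤ (1 + 5 * eta) * k := by positivity
      linarith
  -- exceptional vertices
  set ex : V → ℝ := fun x => if FT G E cell K L T q x then 0 else (C + 1) * k with hex
  have hex0 : ∀ x, 0 ≤ ex x := by
    intro x
    rw [hex]
    simp only
    split_ifs
    · exact le_rfl
    · positivity
  have h3 : ∑ x, ex x ≤ (C + 1) * k * ne := by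
    have e1' : ∑ x, ex x = ((univ.filter (fun x => ¬ FT G E cell K L T q x)).card : ℝ) *
        ((C + 1) * k) := by
      rw [← nsmul_eq_mul, ← sum_const, sum_filter]
      refine sum_congr rfl (fun x _ => ?_)
      rw [hex]
      simp only
      by_cases hx : FT G E cell K L T q x
      · rw [if_pos hx, if_neg (not_not.2 hx)]
      · rw [if_neg hx, if_pos hx]
    rw [e1', mul_comm]
    apply mul_le_mul_of_nonneg_left _ (by positivity)
    exact_mod_cast hne
  -- summation
  rw [card_split h]
  have hs' : ∑ x, ((nb G x).card : ℝ) = ∑ j, ∑ x ∈ cell j, ((nb G x).card : ℝ) +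
      ∑ u, ((nb G (phi u)).card : ℝ) := sum_split h _
  have hp : ∑ x, (∑ l ∈ univ.filter (fun l => poor l), R x l) =
      ∑ j, ∑ x ∈ cell j, (∑ l ∈ univ.filter (fun l => poor l), R x l) +
      ∑ u, (∑ l ∈ univ.filter (fun l => poor l), R (phi u) l) := sum_split h _
  have he' : ∑ x, ex x = ∑ j, ∑ x ∈ cell j, ex x + ∑ u, ex (phi u) := sum_split h _
  have h4 : ∑ u, ((nb G (phi u)).card : ℝ) ≤ (1 + 5 * eta) * k * (Fintype.card U : ℝ) +
      ∑ u, (∑ l ∈ univ.filter (fun l => poor l), R (phi u) l) + ∑ u, ex (phi u) := by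
    have := sum_le_sum (fun u (_ : u ∈ (univ : Finset U)) => h2 (phi u))
    rw [sum_add_distrib, sum_add_distrib, sum_const, card_univ, nsmul_eq_mul] at this
    linarith
  have h5 : ∀ j, ∑ x ∈ cell j, ((nb G x).card : ℝ) ≤ (1 + 5 * eta) * k * wt cell j +
      ∑ x ∈ cell j, (∑ l ∈ univ.filter (fun l => poor l), R x l) + ∑ x ∈ cell j, ex x -
      (if poor j then ∑ x, R x j else 0) := by
    intro j
    have e0 : 0 ≤ ∑ x ∈ cell j, (∑ l ∈ univ.filter (fun l => poor l), R x l) :=
      sum_nonneg fun x _ => sum_nonneg fun l _ => hR0 x l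
    have e0' : 0 ≤ ∑ x ∈ cell j, ex x := sum_nonneg fun x _ => hex0 x
    by_cases hj : poor j
    · rw [if_pos hj]
      have := h1 j hj
      linarith
    · rw [if_neg hj, sub_zero]
      have := sum_le_sum (fun x (_ : x ∈ cell j) => h2 x)
      rw [sum_add_distrib, sum_add_distrib, sum_const, nsmul_eq_mul] at this
      unfold wt
      linarith
  have h6 := sum_le_sum (fun j (_ : j ∈ (univ : Finset J)) => h5 j)
  rw [sum_sub_distrib, sum_add_distrib, sum_add_distrib, ← mul_sum, ← sum_filter] at h6
  have h7 : ∑ x, (∑ l ∈ univ.filter (fun l => poor l), R x l) =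
      ∑ j ∈ univ.filter (fun l => poor l), ∑ x, R x j := sum_comm
  rw [mul_add]
  linarith

end LCX.Full
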