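import Pool.Agent.Lib_MP_0bab5c_co.LowDeg

/-! # Auxiliary facts on the local connectivity -/

namespace Pool.Agent.LC0bab.Part

open Finset

section general

variable {V : Type*} {G : SimpleGraph V}

lemma sep_symm {x y : V} {S : Finset V} (h : Sep G x y S) : Sep G y x S := by
  obtain ⟨h1, h2, h3⟩ := h
  refine ⟨h2, h1, fun w => ?_⟩
  obtain ⟨v, hv, hs⟩ := h3 w.reverse
  exact ⟨v, by simpa using hv, hs⟩

lemma sepNum_comm (x y : V) : sepNum G x y = sepNum G y x := by
  unfold sepNum
  congr 1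
  ext m
  constructor
  · rintro ⟨S, h, rfl⟩; exact ⟨S, sep_symm h, rfl⟩
  · rintro ⟨S, h, rfl⟩; exact ⟨S, sep_symm h, rfl⟩

lemma kappa_comm (x y : V) : kappa G x y = kappa G y x := by
  unfold kappa
  rw [Sym2.eq_swap, sepNum_comm (G := G.deleteEdges _) x y, sepNum_comm x y]
  by_cases h : G.Adj x y
  · rw [if_pos h, if_pos h.symm]
  · rw [if_neg h, if_neg (fun h' => h h'.symm)]

/-- Common neighbours bound the local connectivity of adjacent vertices from below. -/
lemma le_kappa_of_adj {x y : V} (h : G.Adj x y) (C : Finset V)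
    (hC : ∀ c ∈ C, G.Adj x c ∧ G.Adj c y) (S0 : Finset V)
    (hS0 : Sep (G.deleteEdges {s(x, y)}) x y S0) :
    C.card + 1 ≤ kappa G x y := by
  unfold kappa
  rw [if_pos h]
  have hne : {m | ∃ S : Finset V, Sep (G.deleteEdges {s(x, y)}) x y S ∧ S.card = m}.Nonempty :=
    ⟨_, S0, hS0, rfl⟩
  obtain ⟨S, hS, hcard⟩ := Nat.sInf_mem hne
  have hsub : C ⊆ S := by
    intro c hc
    obtain ⟨h1, h2⟩ := hC c hc
    have hcx : c ≠ x := h1.ne'
    have hcy : c ≠ y := h2.ne
    have a1 : (G.deleteEdges {s(x, y)}).Adj x c := by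
      rw [SimpleGraph.deleteEdges_adj]
      refine ⟨h1, ?_⟩
      intro hh
      rw [Set.mem_singleton_iff, Sym2.eq_iff] at hh
      rcases hh with ⟨-, h'⟩ | ⟨h', -⟩
      · exact hcy h'
      · exact h.ne h'
    have a2 : (G.deleteEdges {s(x, y)}).Adj c y := by
      rw [SimpleGraph.deleteEdges_adj]
      refine ⟨h2, ?_⟩
      intro hh
      rw [Set.mem_singleton_iff, Sym2.eq_iff] at hh
      rcases hh with ⟨h', -⟩ | ⟨h', -⟩
      · exact hcx h'
      · exact hcy h'
    obtain ⟨v, hv, hvS⟩ := hS.2.2 (SimpleGraph.Walk.cons a1 (SimpleGraph.Walk.cons a2 .nil))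
    simp only [SimpleGraph.Walk.support_cons, SimpleGraph.Walk.support_nil, List.mem_cons,
      List.not_mem_nil, or_false] at hv
    rcases hv with rfl | rfl | rfl
    · exact absurd hvS hS.1
    · exact hvS
    · exact absurd hvS hS.2.1
  have := card_le_card hsub
  show C.card + 1 ≤ sepNum _ x y + 1
  unfold sepNum
  rw [← hcard]
  omega

end general

end Pool.Agent.LC0bab.Part
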