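import Pool.Agent.Lib_MP_0bab5c_t.TExc
import Pool.Agent.Lib_MP_0bab5c_x.XCells
import Pool.Agent.Lib_MP_0bab5c_x.XClean

/-! # Graphs with small cuts and few vertices: the sum of the degrees is at most `(1 + eps) k |V|` -/

namespace LCX.Full

open Finset LCX
open scoped Classical

/-- the number of exceptional vertices is small -/
theorem ne_small {d0 X : ℝ} {N m k : ℕ} (hd0 : 0 < d0) (hd1 : d0 ≤ 1) (hX : 0 ≤ X) (hk : 1 ≤ k)
    {v : ℝ} (hm : d0 * k * (m : ℝ) ≤ v) (hv : v ≤ (k : ℝ) ^ (1 + 1 / (2 * ((N : ℝ) + 1))))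
    (hX2 : ((2 / d0) ^ N * X) ^ 2 ≤ k) : ((m : ℝ) + 1) ^ N * X ≤ k := by
  have hkr : (1 : ℝ) ≤ k := by exact_mod_cast hk
  have hk0 : (0 : ℝ) < k := by linarith
  set del : ℝ := 1 / (2 * ((N : ℝ) + 1)) with hdel
  have hN0 : (0 : ℝ) ≤ N := Nat.cast_nonneg _
  have hdel0 : 0 < del := by positivity
  have hkd : 1 ≤ (k : ℝ) ^ del := Real.one_le_rpow hkr hdel0.le
  have h1 : (k : ℝ) ^ (1 + del) = k * (k : ℝ) ^ del := by
    rw [Real.rpow_add hk0, Real.rpow_one]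
  rw [h1] at hv
  have h2 : d0 * m ≤ (k : ℝ) ^ del := by
    have : (d0 * m) * k ≤ (k : ℝ) ^ del * k := by linarith
    exact le_of_mul_le_mul_right this hk0
  have h3 : (m : ℝ) + 1 ≤ 2 / d0 * (k : ℝ) ^ del := by
    rw [div_mul_eq_mul_div, le_div_iff₀ hd0]
    nlinarith
  have h4 : ((m : ℝ) + 1) ^ N ≤ (2 / d0 * (k : ℝ) ^ del) ^ N :=
    pow_le_pow_left₀ (by positivity) h3 N
  have h5 : ((k : ℝ) ^ del) ^ N ≤ (k : ℝ) ^ ((1 : ℝ) / 2) := by
    rw [← Real.rpow_natCast, ← Real.rpow_mul hk0.le]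
    apply Real.rpow_le_rpow_of_exponent_le hkr
    rw [hdel, div_mul_eq_mul_div, one_mul, div_le_div_iff₀ (by positivity) (by norm_num)]
    linarith
  have h6 : (2 / d0) ^ N * X ≤ (k : ℝ) ^ ((1 : ℝ) / 2) := by
    rw [← Real.sqrt_eq_rpow]
    exact Real.le_sqrt_of_sq_le hX2
  have h7 : (k : ℝ) ^ ((1 : ℝ) / 2) * (k : ℝ) ^ ((1 : ℝ) / 2) = k := by
    rw [← Real.rpow_add hk0]
    norm_num
  have h8 : 0 ≤ (k : ℝ) ^ ((1 : ℝ) / 2) := by positivity
  have h9 : 0 ≤ (2 / d0) ^ N * X := by positivity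
  calc ((m : ℝ) + 1) ^ N * X ≤ (2 / d0 * (k : ℝ) ^ del) ^ N * X :=
        mul_le_mul_of_nonneg_right h4 hX
    _ = ((k : ℝ) ^ del) ^ N * ((2 / d0) ^ N * X) := by rw [mul_pow]; ring
    _ ≤ (k : ℝ) ^ ((1 : ℝ) / 2) * ((2 / d0) ^ N * X) := mul_le_mul_of_nonneg_right h5 h9
    _ ≤ (k : ℝ) ^ ((1 : ℝ) / 2) * (k : ℝ) ^ ((1 : ℝ) / 2) := mul_le_mul_of_nonneg_left h6 h8
    _ = k := h7

theorem near_cuts_bound (C eta : ℝ) (hC : 1 ≤ C) (heta : 0 < eta) (heta1 : eta ≤ 1) :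
    ∃ del : ℝ, 0 < del ∧ ∃ k0 : ℕ, ∀ k : ℕ, k0 ≤ k →
      ∀ (V : Type) [Fintype V] (G : SimpleGraph V), SmallCuts G k C →
      (k : ℝ) ≤ (Fintype.card V : ℝ) → (Fintype.card V : ℝ) ≤ (k : ℝ) ^ (1 + del) →
      ∑ v, ((nb G v).card : ℝ) ≤ (1 + 10 * eta) * k * (Fintype.card V : ℝ) := by
  have hC0 : 0 < C := by linarith
  set d0 : ℝ := eta / 2 with hd0_def
  have hd0 : 0 < d0 := by positivity
  have hd01 : d0 ≤ 1 / 2 := by rw [hd0_def]; linarith
  set e1 : ℝ := eta * d0 / (2 * (C + 1)) with he1_def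
  have he1 : 0 < e1 := by positivity
  have he11 : e1 ≤ 1 := by
    rw [he1_def, div_le_one (by positivity)]
    have : eta * d0 ≤ 1 * 1 := mul_le_mul heta1 (by linarith) hd0.le (by norm_num)
    linarith
  set tau : ℝ := eta * e1 / 6 with htau_def
  have htau : 0 < tau := by positivity
  have htau2 : 2 * tau ≤ e1 := by
    have : eta * e1 ≤ 1 * e1 := mul_le_mul_of_nonneg_right heta1 he1.le
    rw [htau_def]
    linarith
  set q : ℝ := eta * e1 / (2 * ((C + 1) * C)) with hq_def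
  have hq : 0 < q := by positivity
  have hqe : q ≤ eta := by
    rw [hq_def, div_le_iff₀ (by positivity)]
    have h1 : 1 ≤ (C + 1) * C := by nlinarith
    have h2 : eta * e1 ≤ eta * 1 := mul_le_mul_of_nonneg_left he11 heta.le
    have h3 : eta * 1 ≤ eta * (2 * ((C + 1) * C)) :=
      mul_le_mul_of_nonneg_left (by linarith) heta.le
    linarith
  have hsq : (q + q) * ((C + 1) / e1 * C) ≤ eta := by
    have : (q + q) * ((C + 1) / e1 * C) = eta := by
      rw [hq_def]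
      field_simp
      ring
    rw [this]
  set er : ℝ := eta / (4 * (C + 1) + 2) with her_def
  have her : 0 < er := by positivity
  have her1 : er ≤ 1 / 4 := by
    rw [her_def, div_le_iff₀ (by positivity)]
    linarith
  have her2 : er * (4 * (C + 1) + 2) ≤ eta := by
    have : er * (4 * (C + 1) + 2) = eta := by
      rw [her_def]
      field_simp
    rw [this]
  obtain ⟨M, hMpos, hM⟩ := exists_red C d0 e1 q er eta hC hd0 he1 hq (by linarith) her her1 heta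
  set N : ℕ := ⌊(C + 1) / e1⌋₊ with hN_def
  set B0 : ℝ := (((⌊1 / q⌋₊ + 1) ^ (M * N) : ℕ) : ℝ) with hB0_def
  have hB0 : 0 ≤ B0 := Nat.cast_nonneg _
  set X : ℝ := B0 * ((C + 1) / eta) with hX_def
  have hX : 0 ≤ X := by positivity
  refine ⟨1 / (2 * ((N : ℝ) + 1)), by positivity, ⌈1 / eta⌉₊ + ⌈((2 / d0) ^ N * X) ^ 2⌉₊ + 1,
    fun k hk V _ G hcuts hVk hVd => ?_⟩
  have hk1n : 1 ≤ k := by omega
  have hk1 : (1 : ℝ) ≤ k := by exact_mod_cast hk1n
  have hkpos : (0 : ℝ) < k := by linarith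
  have hk2 : 1 / eta ≤ k := by
    refine (Nat.le_ceil _).trans ?_
    exact_mod_cast (by omega : ⌈1 / eta⌉₊ ≤ k)
  have hk3 : ((2 / d0) ^ N * X) ^ 2 ≤ k := by
    refine (Nat.le_ceil _).trans ?_
    exact_mod_cast (by omega : ⌈((2 / d0) ^ N * X) ^ 2⌉₊ ≤ k)
  have hek : 1 ≤ eta * k := by
    rw [div_le_iff₀ heta] at hk2
    linarith
  obtain ⟨P, m, E, _, hP, hPcuts, hloss⟩ := cleaning G k C d0 e1 hk1 hC hd0 he1 hcuts
  obtain ⟨G', J, U, instJ, instU, cell, hm, phi, adj, hadj, hGP, hred, hnear, hMc, hloss2⟩ :=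
    hM V P k m E hk1 hP
  have hK : (1 + d0 + 3 * tau / e1) * (k : ℝ) ≤ (1 + eta) * k := by
    have : 3 * tau / e1 = eta / 2 := by
      rw [htau_def]
      field_simp
      ring
    rw [this, hd0_def]
    apply le_of_eq
    ring
  have harc : ∀ x z, x ≠ z →
      (∃ B, TrimCut G' E ((1 + d0 + 3 * tau / e1) * (k : ℝ)) (C * k) (tau * k) x z B) ∨
      ∃ B, TrimCut G' E ((1 + d0 + 3 * tau / e1) * (k : ℝ)) (C * k) (tau * k) z x B := by
    have key : ∀ a b : V, (∃ A, IsCut P k (C * k) a b A) →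
        ∃ B, TrimCut G' E ((1 + d0 + 3 * tau / e1) * (k : ℝ)) (C * k) (tau * k) a b B := by
      rintro a b ⟨A, hA⟩
      obtain ⟨B, hB⟩ := trim P k C d0 e1 tau E hP hkpos hd0.le hd01 he1 htau htau2 a b A hA
      exact ⟨B, TrimCut.mono hGP hB⟩
    intro x z hxz
    rcases hPcuts x z hxz with h | h
    · exact Or.inl (key x z h)
    · exact Or.inr (key z x h)
  have hne := exc_count hGP hP hred hkpos he1 hq M hMc harc
  rw [← hN_def] at hne
  have hcount := home_count hP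
  have hmain := full_bound hGP hP hred hnear hk1 hC he1 hq.le (by linarith) her.le her1 her2 hq.le
    heta1 hqe hsq hek hK _ hne
  have hne2 : (C + 1) * (k : ℝ) *
      (((m + 1) ^ N * (⌊1 / q⌋₊ + 1) ^ (M * N) : ℕ) : ℝ) ≤
      eta * k * (Fintype.card V : ℝ) := by
    have h1 := ne_small (N := N) hd0 (by linarith) hX hk1n hcount hVd hk3
    have h2 : (((m + 1) ^ N * (⌊1 / q⌋₊ + 1) ^ (M * N) : ℕ) : ℝ) = ((m : ℝ) + 1) ^ N * B0 := by
      rw [hB0_def]
      push_cast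
      ring
    rw [h2]
    have h3 : (C + 1) * (((m : ℝ) + 1) ^ N * B0) = eta * (((m : ℝ) + 1) ^ N * X) := by
      rw [hX_def]
      field_simp
    have h4 : (C + 1) * (((m : ℝ) + 1) ^ N * B0) ≤ eta * (Fintype.card V : ℝ) := by
      rw [h3]
      exact mul_le_mul_of_nonneg_left (h1.trans hVk) heta.le
    have h5 := mul_le_mul_of_nonneg_left h4 hkpos.le
    linarith
  have hV0 : (0 : ℝ) ≤ (Fintype.card V : ℝ) := Nat.cast_nonneg _
  have hl1 : 2 * e1 * (C + 1) / d0 * k * (Fintype.card V : ℝ) = eta * k * (Fintype.card V : ℝ) := by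
    have : 2 * e1 * (C + 1) / d0 = eta := by
      rw [he1_def]
      field_simp
    rw [this]
  rw [hl1] at hloss
  have hl2 : 2 * (Fintype.card V : ℝ) ≤ 2 * (eta * k * (Fintype.card V : ℝ)) := by
    have := mul_le_mul_of_nonneg_right hek hV0
    linarith
  linarith

end LCX.Full
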