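import Pool.Agent.Lib_MP_0bab5c_x.XRC
import Pool.Agent.Lib_MP_0bab5c_co.Kappa
import Pool.Agent.Lib_MP_0bab5c_t.TNear

/-! # Few vertices: the upper bound `f n k ≤ (1/2 + eps) k n` for `n ≤ k ^ (1 + del)` -/

namespace LCX.Full

open Finset LCX
open scoped Classical
open Pool.Agent.LC0bab (RC e2 SCut SCut_of_RC RC_mono dense_rel e2_sep)

theorem exists_critical2 (eps : ℝ) (heps : 0 < eps) (s0 : ℕ) (hs0 : 1 + 2 * eps ≤ eps * s0)
    (hs2 : 2 ≤ s0) : ∃ k0 : ℕ, 0 < k0 ∧ ∀ k : ℕ, k0 ≤ k →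
    ∀ (V : Type) (G : SimpleGraph V) (W : Finset V), RC G k W ∅ →
      (1 + eps) * k * W.card < e2 G W →
      ∃ (V' : Type) (_ : Fintype V') (G' : SimpleGraph V'), SmallCuts G' k s0 ∧
        k ≤ Fintype.card V' ∧ Fintype.card V' ≤ W.card ∧
        (1 + eps / 2) * k * (Fintype.card V' : ℝ) ≤ ∑ v, ((nb G' v).card : ℝ) := by
  set c : ℝ := 1 + eps with hc
  have hcpos : 0 < c := by rw [hc]; linarith
  have hs2r : (2 : ℝ) ≤ s0 := by exact_mod_cast hs2
  set r : ℝ := 2 * s0 + 2 * c / eps with hr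
  have hr32 : 2 * (s0 : ℝ) ≤ r := by
    have : 0 ≤ 2 * c / eps := by positivity
    linarith
  obtain ⟨k0, h0⟩ := dense_rel.{0} r eps heps
  refine ⟨k0 + 1, by omega, fun k hk V G W hrc hex => ?_⟩
  have hkpos : 0 < k := by omega
  have hkr : (0 : ℝ) < k := by exact_mod_cast hkpos
  have hdense : ∀ W' : Finset V, W' ⊆ W → (W'.card : ℝ) ≤ r * k →
      (e2 G W' : ℝ) ≤ k * W'.card + eps * (k : ℝ) ^ 2 := by
    intro W' hW' hcc
    have h := h0 k (by omega) V G W' ∅ (empty_subset _) hcc (RC_mono hrc hW')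
    rw [sdiff_empty] at h
    have he : (e2 G W' : ℝ) = ∑ v ∈ W', ((Pool.Agent.LC0bab.nb G W' v).card : ℝ) := by
      unfold e2 Pool.Agent.LC0bab.ee
      push_cast
      rfl
    rw [he]
    exact h
  have hsq : (e2 G W : ℝ) ≤ W.card * W.card := by
    have := Pool.Agent.LC0bab.ee_le_mul (G := G) W W
    unfold e2
    exact_mod_cast this
  have hWpos : (0 : ℝ) < W.card := by
    rcases Nat.eq_zero_or_pos W.card with h0' | h0'
    · rw [h0'] at hex hsq
      simp at hex hsq
      exfalso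
      rw [hsq] at hex
      simp at hex
    · exact_mod_cast h0'
  have hWk : c * (k : ℝ) < W.card := by
    have : c * (k : ℝ) * W.card < W.card * W.card := lt_of_lt_of_le hex hsq
    exact lt_of_mul_lt_mul_right this hWpos.le
  have hWk1 : (k : ℝ) < W.card := by
    have : 0 < eps * (k : ℝ) := by positivity
    have h2 : c * (k : ℝ) = k + eps * k := by rw [hc]; ring
    linarith
  have hbig : r * (k : ℝ) < W.card := by
    by_contra hle
    push Not at hle
    have h := hdense W (Subset.refl _) hle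
    have h1 : c * (k : ℝ) * W.card = k * W.card + eps * k * W.card := by rw [hc]; ring
    have h2 : eps * (k : ℝ) * k < eps * k * W.card :=
      mul_lt_mul_of_pos_left hWk1 (by positivity)
    nlinarith
  set P : Finset V → Prop := fun W' => s0 * k ≤ W'.card ∧
    c * (k : ℝ) * (W'.card - k) < e2 G W' with hP
  have hPW : P W := by
    refine ⟨?_, ?_⟩
    · have : (s0 * k : ℝ) ≤ W.card := by nlinarith
      exact_mod_cast this
    · have : c * (k : ℝ) * ((W.card : ℝ) - k) ≤ c * k * W.card := by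
        apply mul_le_mul_of_nonneg_left _ (by positivity)
        linarith
      linarith
  obtain ⟨W', hW'mem, hmin⟩ := exists_min_image (W.powerset.filter P) card
    ⟨W, by simp only [mem_filter, mem_powerset]; exact ⟨Subset.refl _, hPW⟩⟩
  rw [mem_filter, mem_powerset] at hW'mem
  obtain ⟨hW'sub, hW'16, hW'ex⟩ := hW'mem
  have h16 : (s0 * k : ℝ) ≤ W'.card := by exact_mod_cast hW'16
  have hbig' : r * (k : ℝ) < W'.card := by
    by_contra hle
    push Not at hle
    have h := hdense W' hW'sub hle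
    have h1 : c * (k : ℝ) * (W'.card - k) < k * W'.card + eps * (k : ℝ) ^ 2 :=
      lt_of_lt_of_le hW'ex h
    have h2 : (c - 1) * (W'.card : ℝ) < c * k + eps * k := by
      have h3 : k * ((c - 1) * (W'.card : ℝ)) < k * (c * k + eps * k) := by nlinarith
      exact lt_of_mul_lt_mul_left h3 hkr.le
    have h3 : (c - 1) * (s0 * k) ≤ (c - 1) * (W'.card : ℝ) :=
      mul_le_mul_of_nonneg_left h16 (by rw [hc]; linarith)
    have h4 : (1 + 2 * eps) * k ≤ eps * s0 * k := mul_le_mul_of_nonneg_right hs0 hkr.le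
    have h5 : (c - 1) * (s0 * k) = eps * s0 * k := by rw [hc]; ring
    have h6 : c * (k : ℝ) + eps * k = (1 + 2 * eps) * k := by rw [hc]; ring
    linarith
  have hW'bigN : 2 * s0 * k ≤ W'.card := by
    have : (2 * s0 * k : ℝ) ≤ W'.card := by nlinarith
    exact_mod_cast this
  have hminW : ∀ W'' ⊂ W', s0 * k ≤ W''.card → (e2 G W'' : ℝ) ≤ c * (k : ℝ) * (W''.card - k) := by
    intro W'' hW'' h4''
    by_contra hcon2
    push Not at hcon2
    have hmem : W'' ∈ W.powerset.filter P := by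
      rw [mem_filter, mem_powerset]
      exact ⟨hW''.subset.trans hW'sub, h4'', hcon2⟩
    have := hmin W'' hmem
    have := card_lt_card hW''
    omega
  have hrc' : RC G k W' ∅ := RC_mono hrc hW'sub
  have hnb : ∀ v : {v // v ∈ W'}, nb (Pool.Agent.LC0bab.sub G W') v =
      Pool.Agent.LC0bab.nb (Pool.Agent.LC0bab.sub G W') univ v := by
    intro v
    ext a
    simp [nb, Pool.Agent.LC0bab.nb]
  have hbdeq : ∀ A : Finset {v // v ∈ W'}, bd (Pool.Agent.LC0bab.sub G W') A =
      Pool.Agent.LC0bab.bd (Pool.Agent.LC0bab.sub G W') univ A := by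
    intro A
    ext v
    simp [bd, Pool.Agent.LC0bab.bd]
  refine ⟨{v // v ∈ W'}, inferInstance, Pool.Agent.LC0bab.sub G W', ?_, ?_, ?_, ?_⟩
  · -- small cuts
    have key : ∀ x z : {v // v ∈ W'}, SCut G k W' x z →
        ∃ A, IsCut (Pool.Agent.LC0bab.sub G W') (k : ℝ) (s0 * k) x z A := by
      rintro x z ⟨A, hA, hxA, hzA, hadj, hbd, hhalf⟩
      have hsm := small_side (s0 := s0) hkpos hcpos.le hs2 hW'bigN hW'ex hminW hA
        ⟨_, hxA⟩ hbd hhalf
      refine ⟨Pool.Agent.LC0bab.pull W' A, Pool.Agent.LC0bab.mem_pull.2 hxA,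
        fun h => hzA (Pool.Agent.LC0bab.mem_pull.1 h), ?_, ?_, ?_⟩
      · intro a ha haz
        exact Subtype.ext (hadj a (Pool.Agent.LC0bab.mem_pull.1 ha) haz)
      · rw [hbdeq, Pool.Agent.LC0bab.bd_pull G hA,
          Pool.Agent.LC0bab.pull_card Pool.Agent.LC0bab.bd_subset]
        exact_mod_cast hbd
      · rw [Pool.Agent.LC0bab.pull_card hA]
        have h1 : A.card ≤ s0 * k :=
          (card_le_card subset_union_left).trans hsm.le
        exact_mod_cast h1
    intro x z hxz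
    rcases SCut_of_RC hrc' x.2 z.2 (fun h => hxz (Subtype.ext h)) with h | h
    · exact Or.inl (key x z h)
    · exact Or.inr (key z x h)
  · rw [Fintype.card_coe]
    nlinarith
  · rw [Fintype.card_coe]
    exact card_le_card hW'sub
  · rw [Fintype.card_coe]
    have he : ∑ v, ((nb (Pool.Agent.LC0bab.sub G W') v).card : ℝ) = (e2 G W' : ℝ) := by
      have h1 := Pool.Agent.LC0bab.e2_pull G (Subset.refl W')
      rw [← h1, Pool.Agent.LC0bab.pull_self]
      unfold e2 Pool.Agent.LC0bab.ee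
      push_cast
      exact sum_congr rfl (fun v _ => by rw [hnb])
    rw [he]
    have h1 : c * (k : ℝ) * k ≤ eps / 2 * k * W'.card := by
      have h2 : 2 * c / eps * k ≤ W'.card := by
        have : 2 * c / eps ≤ r := by rw [hr]; linarith
        nlinarith
      have h3 : eps / 2 * k * (2 * c / eps * k) ≤ eps / 2 * k * W'.card :=
        mul_le_mul_of_nonneg_left h2 (by positivity)
      have h4 : eps / 2 * k * (2 * c / eps * k) = c * k * k := by
        field_simp
      linarith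
    have h5 : (1 + eps / 2) = c - eps / 2 := by rw [hc]; ring
    rw [h5]
    nlinarith

/-- The upper bound for few vertices. -/
theorem near_upper (eps : ℝ) (heps : 0 < eps) : ∃ del : ℝ, 0 < del ∧ ∃ k0 : ℕ, ∀ k : ℕ, k0 ≤ k →
    ∀ n : ℕ, (n : ℝ) ≤ (k : ℝ) ^ (1 + del) →
      (Pool.Agent.LC0bab.f n k : ℝ) ≤ (1 / 2 + eps) * k * n := by
  -- it suffices to consider small `eps`
  set e : ℝ := min eps 1 with he_def
  have he : 0 < e := lt_min heps one_pos
  have he1 : e ≤ 1 := min_le_right _ _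
  have heeps : e ≤ eps := min_le_left _ _
  set s0 : ℕ := ⌈1 / (2 * e)⌉₊ + 2 with hs0_def
  have hs2 : 2 ≤ s0 := by omega
  have hs0 : 1 + 2 * (2 * e) ≤ 2 * e * s0 := by
    have h1 : 1 / (2 * e) ≤ (⌈1 / (2 * e)⌉₊ : ℝ) := Nat.le_ceil _
    rw [div_le_iff₀ (by positivity)] at h1
    rw [hs0_def]
    push_cast
    nlinarith
  have hs0r : (1 : ℝ) ≤ s0 := by exact_mod_cast (by omega : 1 ≤ s0)
  obtain ⟨k1, hk1pos, h1⟩ := exists_critical2 (2 * e) (by linarith) s0 hs0 hs2
  obtain ⟨del, hdel, k2, h2⟩ := near_cuts_bound s0 (e / 20) hs0r (by positivity) (by linarith)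
  refine ⟨del, hdel, k1 + k2, fun k hk n hn => ?_⟩
  have hkpos : (0 : ℝ) < k := by exact_mod_cast (by omega : 0 < k)
  have hfin : (Pool.Agent.LC0bab.f n k : ℝ) ≤ (1 / 2 + e) * k * n := by
    refine Pool.Agent.LC0bab.f_le (by positivity) (fun V _ G hVn hRC => ?_)
    by_contra hcon
    push Not at hcon
    obtain ⟨V', _, G', hc, hkV, hVn', hdeg⟩ := h1 k (by omega) V G Finset.univ hRC (by
      rw [Finset.card_univ, hVn]
      have : (1 + 2 * e) * (k : ℝ) * n = 2 * ((1 / 2 + e) * k * n) := by ring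
      rw [this]
      exact hcon)
    rw [Finset.card_univ, hVn] at hVn'
    have hkV' : (k : ℝ) ≤ (Fintype.card V' : ℝ) := by exact_mod_cast hkV
    have h3 := h2 k (by omega) V' G' hc hkV' (by
      refine le_trans ?_ hn
      exact_mod_cast hVn')
    have hVpos : (0 : ℝ) < (Fintype.card V' : ℝ) := lt_of_lt_of_le hkpos hkV'
    have h4 : 0 < e * (k * (Fintype.card V' : ℝ)) := by positivity
    nlinarith
  have h5 : (e : ℝ) * (k * n) ≤ eps * (k * n) := mul_le_mul_of_nonneg_right heeps (by positivity)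
  nlinarith

end LCX.Full
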