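import Pool.Agent.Lib_MP_0bab5c_t.TTwin

/-! # Vertices without a full twin

The vertices are divided according to the set of homes they see (at most `(m + 1) ^ N` sets of at
most `N` homes) and, for each of the at most `M N` cells of these homes, the number of neighbours
there (up to `q w_l`). In every class all but one vertex have a twin.
-/

namespace LCX.Full

open Finset LCX
open scoped Classical

variable {V J U : Type} [Fintype V] [Fintype J] [Fintype U]

/-- the number of sets with at most `N` members -/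
theorem few_sets (m N : ℕ) :
    ((univ : Finset (Finset (Fin m))).filter (fun T => T.card ≤ N)).card ≤ (m + 1) ^ N := by
  have hcard : (univ : Finset (Fin N → Option (Fin m))).card = (m + 1) ^ N := by
    rw [card_univ, Fintype.card_fun, Fintype.card_option, Fintype.card_fin, Fintype.card_fin]
  rw [← hcard]
  apply card_le_card_of_injOn (fun T => fun i : Fin N => T.toList[i.1]?)
  · intro x _
    exact mem_coe.2 (mem_univ _)
  · intro T hT T' hT' heq
    have h1 : T.card ≤ N := (mem_filter.1 (mem_coe.1 hT)).2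
    have h1' : T'.card ≤ N := (mem_filter.1 (mem_coe.1 hT')).2
    have key : ∀ A B : Finset (Fin m), A.card ≤ N →
        (∀ i : Fin N, A.toList[i.1]? = B.toList[i.1]?) → A ⊆ B := by
      intro A B hA hAB a ha
      have ha' : a ∈ A.toList := mem_toList.2 ha
      obtain ⟨i, hi, hia⟩ := List.getElem_of_mem ha'
      have hlen : A.toList.length = A.card := length_toList A
      have hiN : i < N := by omega
      have h2 := hAB ⟨i, hiN⟩
      simp only at h2
      rw [List.getElem?_eq_getElem hi, hia] at h2
      have h3 : B.toList[i]? = some a := h2.symm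
      obtain ⟨hj, hja⟩ := List.getElem?_eq_some_iff.1 h3
      have h4 : a ∈ B.toList := by
        rw [← hja]
        exact List.getElem_mem hj
      exact mem_toList.1 h4
    apply Subset.antisymm
    · exact key T T' h1 (fun i => congrFun heq i)
    · exact key T' T h1' (fun i => (congrFun heq i).symm)

theorem exc_count {G P : SimpleGraph V} (hGP : G ≤ P) {k C d0 e1 er s q : ℝ} {m : ℕ}
    {E : Fin m → Finset V} (hP : Clean P k C d0 e1 E) {cell : J → Finset V} {hm : J → Fin m}
    {phi : U → V} {adj : J → J → Prop} {hadj : U → J → Prop}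
    (h : Red G k er s E cell hm phi adj hadj) (hk : 0 < k) (he1 : 0 < e1) (hq : 0 < q) (M : ℕ)
    (hM : ∀ i, (univ.filter (fun j => hm j = i)).card ≤ M) {K L T : ℝ}
    (harc : ∀ x z, x ≠ z → (∃ B, TrimCut G E K L T x z B) ∨ ∃ B, TrimCut G E K L T z x B) :
    (univ.filter (fun x => ¬ FT G E cell K L T q x)).card ≤
      (m + 1) ^ ⌊(C + 1) / e1⌋₊ * (⌊1 / q⌋₊ + 1) ^ (M * ⌊(C + 1) / e1⌋₊) := by
  set N : ℕ := ⌊(C + 1) / e1⌋₊ with hN
  have hwt : ∀ l, 0 < wt cell l := fun l => by
    unfold wt
    exact_mod_cast h.cpos l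
  set S : V → Finset (Fin m) := fun x => univ.filter (fun i => (nb P x ∩ E i).Nonempty) with hS
  have hSN : ∀ x, (S x).card ≤ N := by
    intro x
    refine Nat.le_floor ?_
    have := home_degree hP hk he1 x
    convert this
  set X := univ.filter (fun x => ¬ FT G E cell K L T q x) with hX
  have h1 : ∀ x ∈ X, S x ∈ (univ : Finset (Finset (Fin m))).filter (fun T => T.card ≤ N) := by
    intro x _
    exact mem_filter.2 ⟨mem_univ _, hSN x⟩
  refine (card_le_mul_card_image_of_maps_to h1 ((⌊1 / q⌋₊ + 1) ^ (M * N)) ?_).trans ?_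
  · intro T0 hT0
    have hT0N : T0.card ≤ N := (mem_filter.1 hT0).2
    set Y : Finset V := univ.filter (fun x => S x = T0) with hY
    set R : Finset J := univ.filter (fun l => hm l ∈ T0) with hR
    have hRc : R.card ≤ M * N := by
      refine (card_le_mul_card_image_of_maps_to (fun l hl => (mem_filter.1 hl).2) M ?_).trans
        (Nat.mul_le_mul_left _ hT0N)
      intro i _
      refine le_trans (card_le_card ?_) (hM i)
      intro l hl
      exact mem_filter.2 ⟨mem_univ _, (mem_filter.1 hl).2⟩
    have hkey := few_exceptional Y (fun x z => ∃ B, TrimCut G E K L T x z B)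
      (fun x _ z _ hxz => harc x z hxz) R
      (fun x l => ⌊((nb G x ∩ cell l).card : ℝ) / (q * wt cell l)⌋₊) ⌊1 / q⌋₊ (by
        intro x _ l _
        refine floor_bound (Nat.cast_nonneg _) ?_ hq (hwt l)
        unfold wt
        exact_mod_cast card_le_card inter_subset_right)
    have hkey2 : (Y.filter (fun x => ∀ z ∈ Y, x ≠ z → (∀ l ∈ R,
        ⌊((nb G x ∩ cell l).card : ℝ) / (q * wt cell l)⌋₊ =
        ⌊((nb G z ∩ cell l).card : ℝ) / (q * wt cell l)⌋₊) →
          ¬ ∃ B, TrimCut G E K L T x z B)).card ≤ (⌊1 / q⌋₊ + 1) ^ R.card := by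
      convert hkey
    refine (card_le_card ?_).trans (hkey2.trans (Nat.pow_le_pow_right (Nat.succ_pos _) hRc))
    intro x hx
    obtain ⟨hx1, hx2⟩ := mem_filter.1 hx
    have hx3 : ¬ FT G E cell K L T q x := (mem_filter.1 hx1).2
    have hxY : x ∈ Y := mem_filter.2 ⟨mem_univ _, hx2⟩
    refine mem_filter.2 ⟨hxY, ?_⟩
    intro z hz hxz hval harc'
    apply hx3
    obtain ⟨B, hB⟩ := harc'
    refine ⟨z, B, hB, ?_⟩
    intro l
    by_cases hl : hm l ∈ T0
    · exact floor_close (Nat.cast_nonneg _) (Nat.cast_nonneg _) hq (hwt l)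
        (hval l (mem_filter.2 ⟨mem_univ _, hl⟩))
    · have h0 : nb G x ∩ cell l = ∅ := by
        rw [eq_empty_iff_forall_notMem]
        intro y hy
        obtain ⟨hy1, hy2⟩ := mem_inter.1 hy
        apply hl
        rw [← hx2]
        refine mem_filter.2 ⟨mem_univ _, y, ?_⟩
        rw [mem_inter]
        exact ⟨nbG_le hGP x hy1, h.sub l hy2⟩
      rw [h0, card_empty, Nat.cast_zero]
      have h2 : (0 : ℝ) ≤ ((nb G z ∩ cell l).card : ℝ) := Nat.cast_nonneg _
      have h3 : 0 ≤ q * wt cell l := (mul_pos hq (hwt l)).le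
      linarith
  · rw [mul_comm]
    exact Nat.mul_le_mul_right _ (few_sets m N)

end LCX.Full
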