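import Pool.Agent.Lib_MP_0bab5c_t.TBase

/-!
# Cliques and hubs attached to parts of cliques

Cliques `{ν} × B`, `ν ∈ N`; a hub `h ∈ H` is joined to `(ν, β)`, `β ∈ T h ν`. A clique on `k + 1`
vertices and `r` isolated vertices are added. If every vertex of a clique has degree at most `k` and
if for all hubs `h ≠ h'` some clique `ν` is not joined to `h'` and the other neighbours of `h`
together with the other hubs at `ν` are at most `k` vertices, then the maximum local connectivity
is `k`.
-/

namespace Pool.Agent.LC0bab.Part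

open Finset
open scoped Classical

/-- Vertices. -/
abbrev Wt (N B H : Type) (k r : ℕ) : Type := (N × B) ⊕ (H ⊕ (Fin (k + 1) ⊕ Fin r))

section part

variable {N B H : Type} (T : H → N → Finset B) (k r : ℕ)

/-- Adjacency. -/
def relT : Wt N B H k r → Wt N B H k r → Prop
  | .inl p, .inl q => p.1 = q.1 ∧ p.2 ≠ q.2
  | .inl p, .inr (.inl h) => p.2 ∈ T h p.1
  | .inr (.inl h), .inl p => p.2 ∈ T h p.1
  | .inr (.inr (.inl a)), .inr (.inr (.inl b)) => a ≠ b
  | _, _ => False

/-- The graph. -/
def GT : SimpleGraph (Wt N B H k r) where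
  Adj := relT T k r
  symm := ⟨by
    rintro (p | h | a | a) (q | h' | b | b) hh <;> simp_all [relT]
    · exact fun he => hh.2 he.symm
    · exact fun he => hh he.symm⟩
  loopless := ⟨by rintro (p | h | a | a) hh <;> simp_all [relT]⟩

@[simp] lemma adj_ll (p q : N × B) :
    (GT T k r).Adj (.inl p) (.inl q) ↔ p.1 = q.1 ∧ p.2 ≠ q.2 := Iff.rfl
@[simp] lemma adj_lh (p : N × B) (h : H) :
    (GT T k r).Adj (.inl p) (.inr (.inl h)) ↔ p.2 ∈ T h p.1 := Iff.rfl
@[simp] lemma adj_lr (p : N × B) (a : Fin (k + 1) ⊕ Fin r) :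
    (GT T k r).Adj (.inl p) (.inr (.inr a)) ↔ False := by
  rcases a with a | a <;> exact Iff.rfl
@[simp] lemma adj_hl (p : N × B) (h : H) :
    (GT T k r).Adj (.inr (.inl h)) (.inl p) ↔ p.2 ∈ T h p.1 := Iff.rfl
@[simp] lemma adj_hr (h : H) (a : H ⊕ (Fin (k + 1) ⊕ Fin r)) :
    (GT T k r).Adj (.inr (.inl h)) (.inr a) ↔ False := by
  rcases a with a | a | a <;> exact Iff.rfl
@[simp] lemma adj_rl (p : N × B) (a : Fin (k + 1) ⊕ Fin r) :
    (GT T k r).Adj (.inr (.inr a)) (.inl p) ↔ False := by
  rcases a with a | a <;> exact Iff.rfl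
@[simp] lemma adj_rh (h : H) (a : Fin (k + 1) ⊕ Fin r) :
    (GT T k r).Adj (.inr (.inr a)) (.inr (.inl h)) ↔ False := by
  rcases a with a | a <;> exact Iff.rfl
@[simp] lemma adj_cc (a b : Fin (k + 1)) :
    (GT T k r).Adj (.inr (.inr (.inl a))) (.inr (.inr (.inl b))) ↔ a ≠ b := Iff.rfl
@[simp] lemma adj_ci (a : Fin (k + 1)) (b : Fin r) :
    (GT T k r).Adj (.inr (.inr (.inl a))) (.inr (.inr (.inr b))) ↔ False := Iff.rfl
@[simp] lemma adj_ix (a : Fin r) (v : Fin (k + 1) ⊕ Fin r) :
    (GT T k r).Adj (.inr (.inr (.inr a))) (.inr (.inr v)) ↔ False := by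
  rcases v with v | v <;> exact Iff.rfl

variable [Fintype N] [Fintype B] [Fintype H]

lemma deg_l (p : N × B) :
    (univ.filter ((GT T k r).Adj (.inl p))).card =
      (Fintype.card B - 1) + (univ.filter (fun h => p.2 ∈ T h p.1)).card := by
  rw [card_filter, Fintype.sum_sum_type, Fintype.sum_sum_type]
  simp only [adj_ll, adj_lh, adj_lr, if_false, sum_const_zero, add_zero]
  rw [← card_filter, ← card_filter]
  congr 1
  have : (univ.filter (fun q : N × B => p.1 = q.1 ∧ p.2 ≠ q.2)) =
      (univ.erase p.2).map ⟨fun b => (p.1, b), fun a b h => by simpa using h⟩ := by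
    ext ⟨x, y⟩
    simp only [mem_filter, mem_univ, true_and, mem_map, mem_erase, and_true,
      Function.Embedding.coeFn_mk, Prod.mk.injEq]
    constructor
    · rintro ⟨h1, h2⟩
      exact ⟨y, fun h => h2 h.symm, h1, rfl⟩
    · rintro ⟨a, h1, h2, rfl⟩
      exact ⟨h2, fun h => h1 h.symm⟩
  rw [this, card_map, card_erase_of_mem (mem_univ _), card_univ]

lemma deg_h (h : H) :
    (univ.filter ((GT T k r).Adj (.inr (.inl h)))).card = ∑ ν, (T h ν).card := by
  rw [card_filter, Fintype.sum_sum_type]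
  simp only [adj_hl, adj_hr, if_false, sum_const_zero, add_zero]
  rw [Fintype.sum_prod_type]
  refine sum_congr rfl (fun ν _ => ?_)
  rw [← card_filter]
  congr 1
  ext b
  simp

lemma deg_c (a : Fin (k + 1)) :
    (univ.filter ((GT T k r).Adj (.inr (.inr (.inl a))))).card = k := by
  rw [card_filter, Fintype.sum_sum_type, Fintype.sum_sum_type, Fintype.sum_sum_type]
  simp only [adj_rl, adj_rh, adj_cc, adj_ci, if_false, sum_const_zero, add_zero, zero_add]
  rw [← card_filter]
  have : (univ.filter (fun b : Fin (k + 1) => a ≠ b)) = univ.erase a := by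
    ext b
    simp [eq_comm]
  rw [this, card_erase_of_mem (mem_univ _), card_univ, Fintype.card_fin]
  rfl

lemma deg_i (a : Fin r) :
    (univ.filter ((GT T k r).Adj (.inr (.inr (.inr a))))).card = 0 := by
  rw [card_filter, Fintype.sum_sum_type, Fintype.sum_sum_type]
  simp

/-- Twice the number of edges. -/
lemma two_edges :
    2 * (GT T k r).edgeSet.ncard =
      Fintype.card N * Fintype.card B * (Fintype.card B - 1) + 2 * ∑ h, ∑ ν, (T h ν).card +
        (k + 1) * k := by
  have h1 := (GT T k r).sum_degrees_eq_twice_card_edges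
  have h2 : (GT T k r).edgeSet.ncard = (GT T k r).edgeFinset.card := by
    rw [← SimpleGraph.coe_edgeFinset, Set.ncard_coe_finset]
  rw [h2, ← h1]
  have h3 : ∀ v, (GT T k r).degree v = (univ.filter ((GT T k r).Adj v)).card := by
    intro v
    rw [← SimpleGraph.card_neighborFinset_eq_degree, SimpleGraph.neighborFinset_eq_filter]
  simp only [h3]
  rw [Fintype.sum_sum_type, Fintype.sum_sum_type, Fintype.sum_sum_type]
  simp only [deg_l, deg_h, deg_c, deg_i, sum_const, card_univ, Fintype.card_fin, smul_eq_mul,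
    mul_zero, add_zero]
  rw [sum_add_distrib, sum_const, card_univ, Fintype.card_prod, smul_eq_mul]
  have h4 : ∑ p : N × B, (univ.filter (fun h => p.2 ∈ T h p.1)).card =
      ∑ h, ∑ ν, (T h ν).card := by
    simp only [card_filter]
    rw [sum_comm]
    refine sum_congr rfl (fun h _ => ?_)
    rw [Fintype.sum_prod_type]
    refine sum_congr rfl (fun ν _ => ?_)
    rw [← card_filter]
    congr 1
    ext b
    simp
  rw [h4]
  ring

/-- Two hubs. -/
lemma hub_hub (h h' : H) (hne : h ≠ h') (ν : N) (hν : T h' ν = ∅)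
    (hk : (∑ μ ∈ univ.erase ν, (T h μ).card) +
      ((univ.filter (fun g => (T g ν).Nonempty)).erase h).card ≤ k) :
    kappa (GT T k r) (.inr (.inl h)) (.inr (.inl h')) ≤ k := by
  unfold kappa
  rw [if_neg (by simp)]
  set S1 : Finset (Wt N B H k r) := (univ.erase ν).biUnion (fun μ =>
    (T h μ).map ⟨fun b => .inl (μ, b), fun a b hab => by simpa using hab⟩) with hS1
  set S2 : Finset (Wt N B H k r) := ((univ.filter (fun g => (T g ν).Nonempty)).erase h).map
    ⟨fun g => .inr (.inl g), fun a b hab => by simpa using hab⟩ with hS2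
  have hm1 : ∀ v, v ∈ S1 ↔ ∃ μ, μ ≠ ν ∧ ∃ b ∈ T h μ, (Sum.inl (μ, b) : Wt N B H k r) = v := by
    intro v
    simp [hS1]
  have hm2 : ∀ v, v ∈ S2 ↔ ∃ g, g ≠ h ∧ (T g ν).Nonempty ∧
      (Sum.inr (Sum.inl g) : Wt N B H k r) = v := by
    intro v
    rw [hS2, mem_map]
    simp only [mem_erase, mem_filter, mem_univ, true_and, Function.Embedding.coeFn_mk, and_assoc]
  have hc1 : S1.card ≤ ∑ μ ∈ univ.erase ν, (T h μ).card := by
    refine card_biUnion_le.trans (sum_le_sum fun μ _ => ?_)
    rw [card_map]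
  have hc2 : S2.card = ((univ.filter (fun g => (T g ν).Nonempty)).erase h).card := card_map _
  have hsep : Sep (GT T k r) (.inr (.inl h)) (.inr (.inl h')) (S1 ∪ S2) := by
    refine sep_of_region {v | v = .inr (.inl h) ∨ ∃ b, v = .inl (ν, b)} (Or.inl rfl)
      ?_ _ ?_ ?_ ?_
    · rintro (h1 | ⟨b, h1⟩)
      · simp only [Sum.inr.injEq, Sum.inl.injEq] at h1
        exact hne h1.symm
      · simp at h1
    · rintro a (rfl | ⟨b, rfl⟩) v hav hv
      · rcases v with ⟨μ, c⟩ | g
        · rw [adj_hl] at hav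
          rw [mem_union, hm1]
          refine Or.inl ⟨μ, ?_, c, hav, rfl⟩
          rintro rfl
          exact hv (Or.inr ⟨c, rfl⟩)
        · simp at hav
      · rcases v with ⟨μ, c⟩ | g | g
        · rw [adj_ll] at hav
          obtain ⟨h1, -⟩ := hav
          have h1' : ν = μ := h1
          subst h1'
          exact absurd (Or.inr ⟨c, rfl⟩) hv
        · rw [adj_lh] at hav
          rw [mem_union, hm2]
          refine Or.inr ⟨g, ?_, ⟨b, hav⟩, rfl⟩
          rintro rfl
          exact hv (Or.inl rfl)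
        · simp at hav
    · rw [mem_union, hm1, hm2]
      rintro (⟨μ, _, b, _, h1⟩ | ⟨g, h1, _, h2⟩)
      · simp at h1
      · simp only [Sum.inr.injEq, Sum.inl.injEq] at h2
        exact h1 h2
    · rw [mem_union, hm1, hm2]
      rintro (⟨μ, _, b, _, h1⟩ | ⟨g, h1, h3, h2⟩)
      · simp at h1
      · simp only [Sum.inr.injEq, Sum.inl.injEq] at h2
        rw [h2, hν] at h3
        exact not_nonempty_empty h3
  exact (sepNum_le hsep).trans ((card_union_le _ _).trans (by omega))

/-- The maximum local connectivity of the graph. -/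
theorem kappaBar_GT (hk : 1 ≤ k)
    (hdeg : ∀ (ν : N) (β : B),
      Fintype.card B + (univ.filter (fun h => β ∈ T h ν)).card ≤ k + 1)
    (hsep : ∀ h h' : H, h ≠ h' → ∃ ν : N, T h' ν = ∅ ∧
      (∑ μ ∈ univ.erase ν, (T h μ).card) +
        ((univ.filter (fun g => (T g ν).Nonempty)).erase h).card ≤ k) :
    kappaBar (GT T k r) = k := by
  have hl : ∀ p : N × B, (univ.filter ((GT T k r).Adj (.inl p))).card ≤ k := by
    intro p
    rw [deg_l]
    have h1 := hdeg p.1 p.2
    have h2 : 0 < Fintype.card B := Fintype.card_pos_iff.2 ⟨p.2⟩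
    omega
  have hr : ∀ a : Fin (k + 1) ⊕ Fin r,
      (univ.filter ((GT T k r).Adj (.inr (.inr a)))).card ≤ k := by
    rintro (a | a)
    · rw [deg_c]
    · rw [deg_i]; omega
  apply kappaBar_eq
  · intro x y hxy
    rcases x with p | h | a
    · exact (kappa_le_deg hxy).trans (hl p)
    · rcases y with q | h' | b
      · rw [kappa_comm]
        exact (kappa_le_deg hxy.symm).trans (hl q)
      · have hne : h ≠ h' := fun hh => hxy (by rw [hh])
        obtain ⟨ν, h1, h2⟩ := hsep h h' hne
        exact hub_hub T k r h h' hne ν h1 h2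
      · rw [kappa_comm]
        exact (kappa_le_deg hxy.symm).trans (hr b)
    · exact (kappa_le_deg hxy).trans (hr a)
  · have hab : (⟨0, by omega⟩ : Fin (k + 1)) ≠ ⟨1, by omega⟩ := by simp
    have hxy : (Sum.inr (Sum.inr (Sum.inl ⟨0, by omega⟩)) : Wt N B H k r) ≠
        Sum.inr (Sum.inr (Sum.inl ⟨1, by omega⟩)) := by
      intro hh
      simp only [Sum.inr.injEq, Sum.inl.injEq] at hh
      exact hab hh
    refine ⟨_, _, hxy, ?_⟩
    have key := le_kappa_of_adj (G := GT T k r) (x := .inr (.inr (.inl ⟨0, by omega⟩)))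
      (y := .inr (.inr (.inl ⟨1, by omega⟩))) (by simp)
      (((univ.erase (⟨0, by omega⟩ : Fin (k + 1))).erase ⟨1, by omega⟩).map
        ⟨fun a => (.inr (.inr (.inl a)) : Wt N B H k r), fun a b hab => by simpa using hab⟩)
      ?_ _ (sep_nbhd hxy)
    · rw [card_map, card_erase_of_mem, card_erase_of_mem (mem_univ _), card_univ,
        Fintype.card_fin] at key
      · omega
      · simp
    · intro c hc
      rw [mem_map] at hc
      obtain ⟨a, ha, rfl⟩ := hc
      rw [mem_erase, mem_erase] at ha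
      simp only [Function.Embedding.coeFn_mk, adj_cc]
      exact ⟨fun h => ha.2.1 h.symm, ha.1⟩

/-- The resulting lower bound for `f`. -/
theorem le_f_part (hk : 1 ≤ k)
    (hdeg : ∀ (ν : N) (β : B),
      Fintype.card B + (univ.filter (fun h => β ∈ T h ν)).card ≤ k + 1)
    (hsep : ∀ h h' : H, h ≠ h' → ∃ ν : N, T h' ν = ∅ ∧
      (∑ μ ∈ univ.erase ν, (T h μ).card) +
        ((univ.filter (fun g => (T g ν).Nonempty)).erase h).card ≤ k) :
    Fintype.card N * Fintype.card B * (Fintype.card B - 1) + 2 * ∑ h, ∑ ν, (T h ν).card ≤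
      2 * f (Fintype.card N * Fintype.card B + (Fintype.card H + (k + 1 + r))) k := by
  have h1 := two_edges T k r
  have h2 := le_f (GT T k r) (n := Fintype.card (Wt N B H k r)) rfl
    (kappaBar_GT T k r hk hdeg hsep) le_rfl
  have h3 : Fintype.card (Wt N B H k r) =
      Fintype.card N * Fintype.card B + (Fintype.card H + (k + 1 + r)) := by
    simp only [Fintype.card_sum, Fintype.card_prod, Fintype.card_fin]
  rw [h3] at h2
  omega

end part

end Pool.Agent.LC0bab.Part
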