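import Pool.Agent.Lib_MP_0bab5c_t.TLow

/-!
# Hubs attached to `j + 2` cliques, two hubs sharing at most `j + 1` of them

`N = Fin M × (Fin (j + 2) × (Fin q × Fin (2 j + 3)))`, `B = Fin (2 j + 3) × Fin a`, a hub is a copy
number and a vector `x : Fin (j + 2) → Fin q × Fin (2 j + 3)`; it is attached to the cliques
`(c, x c)`, in the clique number `c` to two of the `2 j + 3` groups, given by `x (c + 1)`.
-/

namespace Pool.Agent.LC0bab.Part

open Finset
open scoped Classical

section

variable (j q a M : ℕ)

/-- Labels of cliques of one class. -/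
abbrev Lab (j q : ℕ) : Type := Fin q × Fin (2 * j + 3)

/-- Cliques. -/
abbrev NN (j q M : ℕ) : Type := Fin M × (Fin (j + 2) × Lab j q)

/-- Positions in a clique. -/
abbrev BB (j a : ℕ) : Type := Fin (2 * j + 3) × Fin a

/-- Hubs. -/
abbrev HH (j q M : ℕ) : Type := Fin M × (Fin (j + 2) → Lab j q)

/-- Two consecutive groups. -/
noncomputable def grp (j a : ℕ) (g : Fin (2 * j + 3)) : Finset (BB j a) :=
  univ.filter (fun b => b.1 = g ∨ b.1 = g + 1)

/-- The attachments. -/
noncomputable def TT (h : HH j q M) (ν : NN j q M) : Finset (BB j a) :=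
  if h.1 = ν.1 then (if h.2 ν.2.1 = ν.2.2 then grp j a (h.2 (ν.2.1 + 1)).2 else ∅) else ∅

lemma succ_ne (g : Fin (2 * j + 3)) : g + 1 ≠ g := by
  intro h
  have h1 : (1 : Fin (2 * j + 3)) = 0 := by
    have := congrArg (fun t => t - g) h
    simp at this
  have h2 := congrArg Fin.val h1
  simp at h2

lemma succ_ne' (c : Fin (j + 2)) : c + 1 ≠ c := by
  intro h
  have h1 : (1 : Fin (j + 2)) = 0 := by
    have := congrArg (fun t => t - c) h
    simp at this
  have h2 := congrArg Fin.val h1
  simp at h2

lemma grp_card (g : Fin (2 * j + 3)) : (grp j a g).card = 2 * a := by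
  have : grp j a g = ({g, g + 1} : Finset (Fin (2 * j + 3))) ×ˢ (univ : Finset (Fin a)) := by
    ext b
    simp [grp]
  rw [this, card_product, card_univ, Fintype.card_fin, card_pair (succ_ne j g).symm]

lemma TT_card (h : HH j q M) (ν : NN j q M) : (TT j q a M h ν).card =
    if h.1 = ν.1 then (if h.2 ν.2.1 = ν.2.2 then 2 * a else 0) else 0 := by
  unfold TT
  split_ifs
  · exact grp_card j a _
  · rfl
  · rfl

lemma sum_TT (h : HH j q M) : ∑ ν, (TT j q a M h ν).card = (j + 2) * (2 * a) := by
  simp only [TT_card]
  rw [Fintype.sum_prod_type]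
  simp only [sum_ite_irrel, sum_const_zero]
  rw [sum_ite_eq]
  simp only [mem_univ, if_true]
  rw [Fintype.sum_prod_type]
  simp only [sum_ite_eq, mem_univ, if_true, sum_const, card_univ, Fintype.card_fin, smul_eq_mul]

lemma count_fix (c : Fin (j + 2)) (v : Lab j q) :
    (univ.filter (fun x : Fin (j + 2) → Lab j q => x c = v)).card =
      (q * (2 * j + 3)) ^ (j + 1) := by
  have h1 : univ.filter (fun x : Fin (j + 2) → Lab j q => x c = v) =
      Fintype.piFinset (fun d => if d = c then {v} else (univ : Finset (Lab j q))) := by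
    ext x
    simp only [mem_filter, mem_univ, true_and, Fintype.mem_piFinset]
    constructor
    · intro h d
      split_ifs with hd
      · rw [hd, h]; exact mem_singleton_self _
      · exact mem_univ _
    · intro h
      have := h c
      rw [if_pos rfl] at this
      exact mem_singleton.1 this
  rw [h1, Fintype.card_piFinset, ← mul_prod_erase univ _ (mem_univ c)]
  rw [if_pos rfl, card_singleton, one_mul]
  have h2 : ∀ d ∈ univ.erase c,
      (if d = c then {v} else (univ : Finset (Lab j q))).card = q * (2 * j + 3) := by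
    intro d hd
    rw [if_neg (ne_of_mem_erase hd), card_univ, Fintype.card_prod, Fintype.card_fin,
      Fintype.card_fin]
  rw [prod_congr rfl h2, prod_const, card_erase_of_mem (mem_univ _), card_univ, Fintype.card_fin]
  rfl

lemma count_deg (c : Fin (j + 2)) (v : Lab j q) (g : Fin (2 * j + 3)) :
    (univ.filter (fun x : Fin (j + 2) → Lab j q =>
      x c = v ∧ (g = (x (c + 1)).2 ∨ g = (x (c + 1)).2 + 1))).card ≤
      2 * q * (q * (2 * j + 3)) ^ j := by
  set W : Finset (Lab j q) := univ.filter (fun w => g = w.2 ∨ g = w.2 + 1) with hW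
  have hWc : W.card ≤ 2 * q := by
    have : W ⊆ (univ : Finset (Fin q)) ×ˢ ({g, g - 1} : Finset (Fin (2 * j + 3))) := by
      intro w hw
      rw [hW, mem_filter] at hw
      rw [mem_product, mem_insert, mem_singleton]
      refine ⟨mem_univ _, ?_⟩
      rcases hw.2 with h | h
      · exact Or.inl h.symm
      · exact Or.inr (by rw [h]; simp)
    refine (card_le_card this).trans ?_
    rw [card_product, card_univ, Fintype.card_fin]
    have := card_insert_le g ({g - 1} : Finset (Fin (2 * j + 3)))
    rw [card_singleton] at this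
    calc q * _ ≤ q * 2 := Nat.mul_le_mul_left _ this
      _ = 2 * q := by ring
  have h1 : univ.filter (fun x : Fin (j + 2) → Lab j q =>
      x c = v ∧ (g = (x (c + 1)).2 ∨ g = (x (c + 1)).2 + 1)) ⊆
      Fintype.piFinset (fun d => if d = c then {v} else if d = c + 1 then W else
        (univ : Finset (Lab j q))) := by
    intro x hx
    simp only [mem_filter, mem_univ, true_and] at hx
    rw [Fintype.mem_piFinset]
    intro d
    split_ifs with hd hd'
    · rw [hd, hx.1]; exact mem_singleton_self _
    · rw [hd', hW, mem_filter]; exact ⟨mem_univ _, hx.2⟩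
    · exact mem_univ _
  refine (card_le_card h1).trans ?_
  rw [Fintype.card_piFinset, ← mul_prod_erase univ _ (mem_univ c), if_pos rfl, card_singleton,
    one_mul, ← mul_prod_erase (univ.erase c) _ (mem_erase.2 ⟨succ_ne' j c, mem_univ (c + 1)⟩)]
  rw [if_neg (succ_ne' j c), if_pos rfl]
  have h2 : ∀ d ∈ (univ.erase c).erase (c + 1),
      (if d = c then {v} else if d = c + 1 then W else
        (univ : Finset (Lab j q))).card = q * (2 * j + 3) := by
    intro d hd
    rw [mem_erase, mem_erase] at hd
    rw [if_neg hd.2.1, if_neg hd.1, card_univ, Fintype.card_prod, Fintype.card_fin,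
      Fintype.card_fin]
  rw [prod_congr rfl h2, prod_const, card_erase_of_mem (mem_erase.2 ⟨succ_ne' j c, mem_univ _⟩),
    card_erase_of_mem (mem_univ _), card_univ, Fintype.card_fin]
  exact Nat.mul_le_mul_right _ hWc

/-- The lower bound with all parameters. -/
theorem low_param (k r : ℕ) (hk : 1 ≤ k)
    (h1 : (2 * j + 3) * a + 2 * q * (q * (2 * j + 3)) ^ j ≤ k + 1)
    (h2 : (j + 1) * (2 * a) + (q * (2 * j + 3)) ^ (j + 1) ≤ k + 1) :
    M * ((j + 2) * (q * (2 * j + 3))) * ((2 * j + 3) * a) * ((2 * j + 3) * a - 1) +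
      2 * (M * (q * (2 * j + 3)) ^ (j + 2) * ((j + 2) * (2 * a))) ≤
    2 * f (M * ((j + 2) * (q * (2 * j + 3))) * ((2 * j + 3) * a) +
      (M * (q * (2 * j + 3)) ^ (j + 2) + (k + 1 + r))) k := by
  have hN : Fintype.card (NN j q M) = M * ((j + 2) * (q * (2 * j + 3))) := by
    simp only [Fintype.card_prod, Fintype.card_fin]
  have hB : Fintype.card (BB j a) = (2 * j + 3) * a := by
    simp only [Fintype.card_prod, Fintype.card_fin]
  have hH : Fintype.card (HH j q M) = M * (q * (2 * j + 3)) ^ (j + 2) := by
    simp only [Fintype.card_prod, Fintype.card_fin, Fintype.card_fun]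
  have hS : ∑ h : HH j q M, ∑ ν, (TT j q a M h ν).card =
      M * (q * (2 * j + 3)) ^ (j + 2) * ((j + 2) * (2 * a)) := by
    simp only [sum_TT, sum_const, card_univ, smul_eq_mul]
    rw [hH]
  have key := le_f_part (TT j q a M) k r hk ?_ ?_
  · rw [hN, hB, hH, hS] at key
    exact key
  · rintro ⟨μ, c, v⟩ ⟨g, α⟩
    rw [hB]
    have hle : (univ.filter (fun h : HH j q M => (g, α) ∈ TT j q a M h (μ, c, v))).card ≤
        (univ.filter (fun x : Fin (j + 2) → Lab j q =>
          x c = v ∧ (g = (x (c + 1)).2 ∨ g = (x (c + 1)).2 + 1))).card := by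
      refine card_le_card_of_injOn (fun h => h.2) ?_ ?_
      · intro h hh
        rw [coe_filter, Set.mem_ofPred_eq] at hh
        have hh2 := hh.2
        unfold TT at hh2
        split_ifs at hh2 with e1 e2
        · rw [grp, mem_filter] at hh2
          rw [coe_filter, Set.mem_ofPred_eq]
          exact ⟨mem_univ _, e2, hh2.2⟩
        · exact absurd hh2 (notMem_empty _)
        · exact absurd hh2 (notMem_empty _)
      · intro h hh h' hh' he
        rw [coe_filter, Set.mem_ofPred_eq] at hh hh'
        have e1 : h.1 = μ := by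
          by_contra hne
          have := hh.2
          unfold TT at this
          rw [if_neg hne] at this
          exact absurd this (notMem_empty _)
        have e2 : h'.1 = μ := by
          by_contra hne
          have := hh'.2
          unfold TT at this
          rw [if_neg hne] at this
          exact absurd this (notMem_empty _)
        exact Prod.ext (e1.trans e2.symm) he
    have h3 := hle.trans (count_deg j q c v g)
    refine le_trans (Nat.add_le_add_left (le_trans (le_of_eq ?_) h3) _) h1
    refine congrArg card (Finset.ext fun g' => ?_)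
    simp only [mem_filter]
  · rintro ⟨μ, x⟩ ⟨μ', x'⟩ hne
    obtain ⟨c, hc⟩ : ∃ c : Fin (j + 2), TT j q a M (μ', x') (μ, c, x c) = ∅ := by
      by_cases hμ : μ' = μ
      · have hx : x ≠ x' := by
          rintro rfl
          exact hne (by rw [hμ])
        obtain ⟨c, hc⟩ := Function.ne_iff.1 hx
        refine ⟨c, ?_⟩
        unfold TT
        rw [if_pos hμ, if_neg (fun h => hc h.symm)]
      · refine ⟨0, ?_⟩
        unfold TT
        rw [if_neg hμ]
    refine ⟨(μ, c, x c), hc, ?_⟩
    have hs := sum_TT j q a M (μ, x)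
    rw [← add_sum_erase univ _ (mem_univ (μ, c, x c))] at hs
    have hT : (TT j q a M (μ, x) (μ, c, x c)).card = 2 * a := by
      rw [TT_card, if_pos rfl, if_pos rfl]
    rw [hT] at hs
    have hle : ((univ.filter (fun g : HH j q M => (TT j q a M g (μ, c, x c)).Nonempty)).erase
        (μ, x)).card ≤ (q * (2 * j + 3)) ^ (j + 1) - 1 := by
      have hsub : (univ.filter (fun g : HH j q M => (TT j q a M g (μ, c, x c)).Nonempty)).erase
          (μ, x) ⊆ ((univ.filter (fun y : Fin (j + 2) → Lab j q => y c = x c)).map
            ⟨fun y => ((μ, y) : HH j q M), fun y y' h => by simpa using h⟩).erase (μ, x) := by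
        apply erase_subset_erase
        rintro ⟨μ2, y⟩ hy
        rw [mem_filter] at hy
        obtain ⟨b, hb⟩ := hy.2
        unfold TT at hb
        split_ifs at hb with e1 e2
        · rw [mem_map]
          have e1' : μ2 = μ := e1
          subst e1'
          exact ⟨y, mem_filter.2 ⟨mem_univ _, e2⟩, rfl⟩
        · exact absurd hb (notMem_empty _)
        · exact absurd hb (notMem_empty _)
      refine (card_le_card hsub).trans ?_
      rw [card_erase_of_mem, card_map, count_fix]
      rw [mem_map]
      exact ⟨x, mem_filter.2 ⟨mem_univ _, rfl⟩, rfl⟩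
    have e3 : (j + 2) * (2 * a) = (j + 1) * (2 * a) + 2 * a := by ring
    rw [e3] at hs
    have hpos : 0 < (q * (2 * j + 3)) ^ (j + 1) := by
      rw [← count_fix j q c (x c)]
      exact card_pos.2 ⟨x, mem_filter.2 ⟨mem_univ _, rfl⟩⟩
    have hs2 : ∑ ν ∈ univ.erase (μ, c, x c), (TT j q a M (μ, x) ν).card = (j + 1) * (2 * a) := by
      omega
    refine le_trans (Nat.add_le_add (le_of_eq (Eq.trans ?_ hs2)) (le_trans (le_of_eq ?_) hle)) ?_
    · refine sum_congr (Finset.ext fun g' => ?_) (fun _ _ => rfl)
      simp only [mem_erase]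
    · refine congrArg card (Finset.ext fun g' => ?_)
      simp only [mem_erase, mem_filter]
    · omega

end

end Pool.Agent.LC0bab.Part
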