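import Pool.Agent.Lib_MP_0bab5c_t.TLow2

/-!
# The lower bound `(1 / 2 + δ) k n` for `n ≥ k ^ (1 + ε)`
-/

namespace Pool.Agent.LC0bab.Part

open Finset

/-- The real inequality. -/
lemma real_ineq (G k z u c : ℝ) (hG : 3 ≤ G) (hc : 0 < c) (hz0 : 0 ≤ z)
    (h1 : z + u ≤ k + 1) (h2 : k + 2 ≤ z + u + G) (h3 : G ^ 2 * u ≤ k) (h4 : c * k ≤ u)
    (hk1 : 18 * (G * (G + 1)) ≤ k) (hk2 : 8 * (G * (G + 1)) ≤ c * k) :
    (1 + 2 * (c / (8 * (2 * G + 3)))) * k * ((G + 1) * z + G * u) ≤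
      (G + 1) * z * (z - 1 + 2 * u) := by
  have hGp : 0 < G := by linarith
  have hk0 : 0 < k := by nlinarith
  have hu0 : 0 ≤ u := le_trans (by positivity) h4
  have hk1' : 1 ≤ k := by nlinarith
  -- `(G + 1) u ≤ 4 / 9 k`
  have h5 : (G + 1) * u ≤ 4 / 9 * k := by
    have : (G + 1) * u ≤ 4 / 9 * (G ^ 2 * u) := by
      have h6 : G + 1 ≤ 4 / 9 * G ^ 2 := by nlinarith
      have := mul_le_mul_of_nonneg_right h6 hu0
      linarith
    linarith
  have h6 : u * (k / 2) ≤ (G + 1) * z * u - k * G * u := by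
    have h7 : k / 2 ≤ (G + 1) * z - k * G := by
      have h8 : (G + 1) * (k - G - u) ≤ (G + 1) * z :=
        mul_le_mul_of_nonneg_left (by linarith) (by linarith)
      nlinarith
    have := mul_le_mul_of_nonneg_left h7 hu0
    nlinarith
  have h7 : (G + 1) * z * (k - G + u) ≤ (G + 1) * z * (z - 1 + 2 * u) := by
    apply mul_le_mul_of_nonneg_left _ (by positivity)
    linarith
  have h8 : (G + 1) * z * G ≤ 2 * (G * (G + 1)) * k := by
    have : z ≤ 2 * k := by linarith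
    have := mul_le_mul_of_nonneg_left this (show 0 ≤ G * (G + 1) by positivity)
    linarith
  have h9 : 2 * (c / (8 * (2 * G + 3))) * k * ((G + 1) * z + G * u) ≤ c / 4 * k ^ 2 := by
    have h10 : (G + 1) * z + G * u ≤ (2 * G + 3) * k := by
      have h11 : z ≤ 2 * k - u := by linarith
      have h12 : (G + 1) * z ≤ (G + 1) * (2 * k - u) :=
        mul_le_mul_of_nonneg_left h11 (by linarith)
      nlinarith
    have h11 : 0 ≤ 2 * (c / (8 * (2 * G + 3))) * k := by positivity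
    have h12 := mul_le_mul_of_nonneg_left h10 h11
    have h13 : 2 * (c / (8 * (2 * G + 3))) * k * ((2 * G + 3) * k) = c / 4 * k ^ 2 := by
      field_simp
      ring
    linarith
  have h10 : c / 2 * k ^ 2 ≤ u * (k / 2) := by
    have := mul_le_mul_of_nonneg_right h4 (show 0 ≤ k / 2 by positivity)
    nlinarith
  have h11 : 2 * (G * (G + 1)) * k ≤ c / 4 * k ^ 2 := by
    have := mul_le_mul_of_nonneg_right hk2 (show 0 ≤ k / 4 by positivity)
    nlinarith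
  nlinarith

/-- The lower bound in terms of the number `Q` of cliques per class. -/
theorem low_num (j : ℕ) : ∃ δ : ℝ, 0 < δ ∧ ∃ C : ℝ, 0 < C ∧ ∀ k : ℕ, C ≤ k →
    ∃ Q : ℕ, Q ^ (j + 1) ≤ k ∧ ∀ n : ℕ, C * ((k : ℝ) * Q) ≤ n →
      (1 / 2 + δ) * k * n ≤ f n k := by
  set G : ℕ := 2 * j + 3 with hG
  have hG3 : (3 : ℝ) ≤ G := by
    rw [hG]; push_cast
    have : (0 : ℝ) ≤ j := Nat.cast_nonneg j
    linarith
  set c : ℝ := 1 / ((G : ℝ) ^ 2 * 2 ^ (j + 1)) with hc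
  have hcpos : 0 < c := by positivity
  set δ : ℝ := c / (8 * (2 * (G : ℝ) + 3)) with hδ
  have hδpos : 0 < δ := by positivity
  have hδ1 : δ ≤ 1 := by
    have h1 : c ≤ 1 := by
      rw [hc, div_le_one (by positivity)]
      have h2 : (1 : ℝ) ≤ (G : ℝ) ^ 2 := by nlinarith
      have h3 : (1 : ℝ) ≤ 2 ^ (j + 1) := one_le_pow₀ (by norm_num)
      nlinarith
    rw [hδ, div_le_one (by positivity)]
    linarith
  refine ⟨δ / 2, by positivity, 2 * (G : ℝ) ^ (j + 2) + 18 * ((G : ℝ) * (G + 1)) +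
    8 * ((G : ℝ) * (G + 1)) / c + 3 * (2 * (G : ℝ) + 5) / δ, by positivity, fun k hk => ?_⟩
  have hGpos : 0 < G := by omega
  have t1 : 0 ≤ 2 * (G : ℝ) ^ (j + 2) := by positivity
  have t2 : 0 ≤ 18 * ((G : ℝ) * (G + 1)) := by positivity
  have t3 : 0 ≤ 8 * ((G : ℝ) * (G + 1)) / c := by positivity
  have t4 : 0 ≤ 3 * (2 * (G : ℝ) + 5) / δ := by positivity
  have hk1 : 2 * (G : ℝ) ^ (j + 2) ≤ k := by linarith
  have hk2 : 18 * ((G : ℝ) * (G + 1)) ≤ k := by linarith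
  have hk3 : 8 * ((G : ℝ) * (G + 1)) ≤ c * k := by
    have : 8 * ((G : ℝ) * (G + 1)) / c ≤ k := by linarith
    rw [div_le_iff₀ hcpos] at this
    linarith
  have hkpos : 1 ≤ k := by
    have : (1 : ℝ) ≤ k := by nlinarith
    exact_mod_cast this
  have hkR : (0 : ℝ) < k := by exact_mod_cast hkpos
  -- the choice of `q`
  set q : ℕ := Nat.findGreatest (fun q => 2 * G * (q * G) ^ (j + 1) ≤ k) k with hq
  have hq1 : 1 ≤ q := by
    apply Nat.le_findGreatest hkpos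
    have h1 : ((2 * G * (1 * G) ^ (j + 1) : ℕ) : ℝ) ≤ (k : ℝ) := by
      push_cast
      have : 2 * (G : ℝ) * (1 * G) ^ (j + 1) = 2 * (G : ℝ) ^ (j + 2) := by ring
      linarith
    exact_mod_cast h1
  have hqP : 2 * G * (q * G) ^ (j + 1) ≤ k :=
    Nat.findGreatest_spec (P := fun q => 2 * G * (q * G) ^ (j + 1) ≤ k) hkpos (by
      have h1 : ((2 * G * (1 * G) ^ (j + 1) : ℕ) : ℝ) ≤ (k : ℝ) := by
        push_cast
        have : 2 * (G : ℝ) * (1 * G) ^ (j + 1) = 2 * (G : ℝ) ^ (j + 2) := by ring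
        linarith
      exact_mod_cast h1)
  have hqmax : k < 2 * G * ((q + 1) * G) ^ (j + 1) := by
    by_contra hcon
    push Not at hcon
    have h1 : q + 1 ≤ k := by
      have h2 : q + 1 ≤ ((q + 1) * G) ^ (j + 1) := by
        calc q + 1 ≤ (q + 1) * G := Nat.le_mul_of_pos_right _ hGpos
          _ ≤ ((q + 1) * G) ^ (j + 1) := Nat.le_self_pow (by omega) _
      calc q + 1 ≤ ((q + 1) * G) ^ (j + 1) := h2
        _ ≤ 2 * G * ((q + 1) * G) ^ (j + 1) := Nat.le_mul_of_pos_left _ (by omega)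
        _ ≤ k := hcon
    have h3 := Nat.le_findGreatest (P := fun q => 2 * G * (q * G) ^ (j + 1) ≤ k) h1 hcon
    omega
  set Q : ℕ := q * G with hQ
  set u : ℕ := 2 * q * Q ^ j with hu
  have hGu : G * u = 2 * Q ^ (j + 1) := by
    rw [hu, pow_succ]
    have : Q = q * G := hQ
    calc G * (2 * q * Q ^ j) = 2 * (Q ^ j * (q * G)) := by ring
      _ = 2 * (Q ^ j * Q) := by rw [← this]
  have hGGu : G ^ 2 * u ≤ k := by
    calc G ^ 2 * u = G * (G * u) := by ring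
      _ = 2 * G * Q ^ (j + 1) := by rw [hGu]; ring
      _ ≤ k := hqP
  have huk : u ≤ k := le_trans (Nat.le_mul_of_pos_left _ (by positivity)) hGGu
  have hku : k ≤ G ^ 2 * 2 ^ (j + 1) * u := by
    have h1 : (q + 1) * G ≤ 2 * Q := by
      rw [hQ]
      calc (q + 1) * G ≤ (2 * q) * G := Nat.mul_le_mul_right _ (by omega)
        _ = 2 * (q * G) := by ring
    have h2 : ((q + 1) * G) ^ (j + 1) ≤ (2 * Q) ^ (j + 1) := Nat.pow_le_pow_left h1 _
    calc k ≤ 2 * G * ((q + 1) * G) ^ (j + 1) := hqmax.le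
      _ ≤ 2 * G * (2 * Q) ^ (j + 1) := Nat.mul_le_mul_left _ h2
      _ = G * 2 ^ (j + 1) * (2 * Q ^ (j + 1)) := by rw [mul_pow]; ring
      _ = G ^ 2 * 2 ^ (j + 1) * u := by rw [← hGu]; ring
  set a : ℕ := (k + 1 - u) / G with ha
  set z : ℕ := G * a with hz
  have hzu : z + u ≤ k + 1 := by
    have := Nat.mul_div_le (k + 1 - u) G
    rw [← ha, ← hz] at this
    omega
  have hzu2 : k + 2 ≤ z + u + G := by
    have := Nat.lt_mul_div_succ (k + 1 - u) hGpos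
    have h2 : G * ((k + 1 - u) / G + 1) = z + G := by rw [hz, ha]; ring
    rw [h2] at this
    omega
  have hsep : (j + 1) * (2 * a) + Q ^ (j + 1) ≤ k + 1 := by
    have h1 : G * ((j + 1) * (2 * a) + Q ^ (j + 1)) ≤ G * (k + 1) := by
      have h2 : G * ((j + 1) * (2 * a)) + z = G * z := by
        rw [hz]
        have : G * ((j + 1) * (2 * a)) + G * a = G * ((2 * j + 3) * a) := by ring
        rw [this, ← hG]
      have h3 : 2 * (G * Q ^ (j + 1)) ≤ k := by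
        calc 2 * (G * Q ^ (j + 1)) = 2 * G * Q ^ (j + 1) := by ring
          _ ≤ k := hqP
      have h4 : G * z + G * u ≤ G * (k + 1) := by
        rw [← mul_add]; exact Nat.mul_le_mul_left _ hzu
      have h5 : k ≤ 2 * z := by
        have h6 : u ≤ k / 9 := by
          rw [Nat.le_div_iff_mul_le (by norm_num)]
          calc u * 9 ≤ u * G ^ 2 := Nat.mul_le_mul_left _ (by
                have : 3 ≤ G := by omega
                nlinarith)
            _ = G ^ 2 * u := by ring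
            _ ≤ k := hGGu
        have h7 : 18 * G ≤ k := by
          have : 18 * (G : ℝ) ≤ k := by nlinarith
          exact_mod_cast this
        omega
      rw [mul_add]
      nlinarith
    exact Nat.le_of_mul_le_mul_left h1 hGpos
  refine ⟨Q, le_trans (Nat.le_mul_of_pos_left _ (by omega)) hqP, fun n hn => ?_⟩
  set n1 : ℕ := (j + 2) * Q * z + Q ^ (j + 2) with hn1
  have hQpos : 0 < Q := by positivity
  have hn1pos : 0 < n1 := by
    have : 0 < Q ^ (j + 2) := by positivity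
    omega
  -- the real form of the inequality for one copy
  have hzR : (0 : ℝ) ≤ z := Nat.cast_nonneg z
  have hz1 : 1 ≤ z := by
    by_contra hcon
    have h0 : z = 0 := by omega
    have h7 : 18 * G ≤ k := by
      have : 18 * (G : ℝ) ≤ k := by nlinarith
      exact_mod_cast this
    have h6 : u ≤ k / 9 := by
      rw [Nat.le_div_iff_mul_le (by norm_num)]
      calc u * 9 ≤ u * G ^ 2 := Nat.mul_le_mul_left _ (by
            have : 3 ≤ G := by omega
            nlinarith)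
        _ = G ^ 2 * u := by ring
        _ ≤ k := hGGu
    omega
  have hcu : c * k ≤ u := by
    rw [hc, div_mul_eq_mul_div, one_mul, div_le_iff₀ (by positivity)]
    have : (k : ℝ) ≤ ((G ^ 2 * 2 ^ (j + 1) * u : ℕ) : ℝ) := by exact_mod_cast hku
    push_cast at this
    linarith
  have hmain := real_ineq (G : ℝ) k z u c hG3 hcpos hzR (by exact_mod_cast hzu)
    (by exact_mod_cast hzu2) (by exact_mod_cast hGGu) hcu hk2 hk3
  rw [← hδ] at hmain
  have hGj : (G : ℝ) + 1 = 2 * ((j : ℝ) + 2) := by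
    rw [hG]; push_cast; ring
  have hGuR : (G : ℝ) * u = 2 * (Q : ℝ) ^ (j + 1) := by exact_mod_cast hGu
  rw [hGj, hGuR] at hmain
  have hn1R : (n1 : ℝ) = (j + 2) * Q * z + (Q : ℝ) ^ (j + 2) := by
    rw [hn1]; push_cast; ring
  set X : ℝ := ((j : ℝ) + 2) * Q * (z * (z - 1 + 2 * u)) with hX
  have hXn : (1 + 2 * δ) * k * n1 ≤ X := by
    have h1 : (Q : ℝ) / 2 * ((1 + 2 * δ) * k * (2 * ((j : ℝ) + 2) * z + 2 * (Q : ℝ) ^ (j + 1))) ≤
        (Q : ℝ) / 2 * (2 * ((j : ℝ) + 2) * z * (z - 1 + 2 * u)) :=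
      mul_le_mul_of_nonneg_left hmain (by positivity)
    have h2 : (Q : ℝ) / 2 * ((1 + 2 * δ) * k * (2 * ((j : ℝ) + 2) * z + 2 * (Q : ℝ) ^ (j + 1))) =
        (1 + 2 * δ) * k * n1 := by
      rw [hn1R, pow_succ (Q : ℝ) (j + 1)]
      ring
    have h3 : (Q : ℝ) / 2 * (2 * ((j : ℝ) + 2) * z * (z - 1 + 2 * u)) = X := by
      rw [hX]; ring
    linarith
  -- size of one copy
  have hn1le : (n1 : ℝ) ≤ (2 * (G : ℝ) + 2) * (k * Q) := by
    have h1 : (z : ℝ) ≤ 2 * k := by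
      have : (z : ℝ) + u ≤ k + 1 := by exact_mod_cast hzu
      have h2 : (0 : ℝ) ≤ u := Nat.cast_nonneg u
      have h3 : (1 : ℝ) ≤ k := by exact_mod_cast hkpos
      linarith
    have h2 : (Q : ℝ) ^ (j + 1) ≤ k := by
      have : Q ^ (j + 1) ≤ k := le_trans (Nat.le_mul_of_pos_left _ (by omega)) hqP
      exact_mod_cast this
    rw [hn1R, pow_succ (Q : ℝ) (j + 1)]
    have h3 : ((j : ℝ) + 2) * Q * z ≤ ((j : ℝ) + 2) * Q * (2 * k) :=
      mul_le_mul_of_nonneg_left h1 (by positivity)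
    have h4 : (Q : ℝ) ^ (j + 1) * Q ≤ k * Q := mul_le_mul_of_nonneg_right h2 (by positivity)
    have h5 : ((j : ℝ) + 2) * Q * (2 * k) + k * Q = (2 * ((j : ℝ) + 2) + 1) * (k * Q) := by ring
    have h6 : (2 * ((j : ℝ) + 2) + 1) * (k * Q) ≤ (2 * (G : ℝ) + 2) * (k * Q) := by
      apply mul_le_mul_of_nonneg_right _ (by positivity)
      rw [← hGj]
      linarith
    linarith
  have hQ1 : (1 : ℝ) ≤ Q := by exact_mod_cast hQpos
  have hkQ : (k : ℝ) ≤ k * Q := le_mul_of_one_le_right hkR.le hQ1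
  have hnbig : 3 * ((n1 : ℝ) + k + 1) ≤ δ * n := by
    have h1 : 3 * (2 * (G : ℝ) + 5) / δ * (k * Q) ≤ n := by
      refine le_trans ?_ hn
      apply mul_le_mul_of_nonneg_right _ (by positivity)
      linarith
    have h2 : 3 * (2 * (G : ℝ) + 5) * (k * Q) ≤ δ * n := by
      have h3 : δ * (3 * (2 * (G : ℝ) + 5) / δ * (k * Q)) ≤ δ * n :=
        mul_le_mul_of_nonneg_left h1 hδpos.le
      have h4 : δ * (3 * (2 * (G : ℝ) + 5) / δ * (k * Q)) = 3 * (2 * (G : ℝ) + 5) * (k * Q) := by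
        field_simp
      linarith
    have h3 : (1 : ℝ) ≤ k := by exact_mod_cast hkpos
    nlinarith
  have hn0 : (0 : ℝ) ≤ n := Nat.cast_nonneg n
  have hkn : n1 + k + 1 ≤ n := by
    have : (n1 : ℝ) + k + 1 ≤ n := by
      have h1 : δ * n ≤ n := mul_le_of_le_one_left hn0 hδ1
      have h2 : (0 : ℝ) ≤ n1 := Nat.cast_nonneg n1
      linarith
    exact_mod_cast this
  set M : ℕ := (n - (k + 1)) / n1 with hM
  set r : ℕ := (n - (k + 1)) % n1 with hr
  have hdm : n1 * M + r = n - (k + 1) := Nat.div_add_mod _ _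
  have hrlt : r < n1 := Nat.mod_lt _ hn1pos
  have key := low_param j q a M k r hkpos (by
    have : 2 * q * (q * (2 * j + 3)) ^ j = u := by rw [hu, hQ, hG]
    rw [this, ← hG, ← hz]
    exact hzu) hsep
  rw [← hG, ← hz] at key
  have hcard : M * ((j + 2) * (q * G)) * z + (M * (q * G) ^ (j + 2) + (k + 1 + r)) = n := by
    have h1 : M * ((j + 2) * (q * G)) * z + M * (q * G) ^ (j + 2) = n1 * M := by
      rw [hn1, ← hQ]; ring
    omega
  rw [hcard] at key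
  have hkeyR : (M : ℝ) * X ≤ 2 * f n k := by
    have h1 : ((M * ((j + 2) * (q * G)) * z * (z - 1) +
        2 * (M * (q * G) ^ (j + 2) * ((j + 2) * (2 * a))) : ℕ) : ℝ) ≤ ((2 * f n k : ℕ) : ℝ) := by
      exact_mod_cast key
    rw [← hQ] at h1
    push_cast [Nat.cast_sub hz1] at h1
    have h2 : (Q : ℝ) ^ (j + 2) * (4 * a) = Q * (2 * (z * u)) := by
      have h3 : (z : ℝ) = G * a := by rw [hz]; push_cast; ring
      have h4 : (Q : ℝ) ^ (j + 2) = (Q : ℝ) ^ (j + 1) * Q := pow_succ _ _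
      have h5 : (Q : ℝ) ^ (j + 1) = (G : ℝ) * u / 2 := by linarith
      rw [h4, h5, h3]
      ring
    have h3 : (M : ℝ) * X = (M : ℝ) * (((j : ℝ) + 2) * Q) * z * (z - 1) +
        (M : ℝ) * ((j : ℝ) + 2) * (Q * (2 * (z * u))) := by
      rw [hX]; ring
    rw [h3, ← h2]
    have h4 : (M : ℝ) * (((j : ℝ) + 2) * Q) * z * (z - 1) +
        (M : ℝ) * ((j : ℝ) + 2) * ((Q : ℝ) ^ (j + 2) * (4 * a)) =
        (M : ℝ) * (((j : ℝ) + 2) * Q) * z * (z - 1) +
        2 * ((M : ℝ) * (Q : ℝ) ^ (j + 2) * (((j : ℝ) + 2) * (2 * a))) := by ring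
    rw [h4]
    exact h1
  have hMn : (n : ℝ) - (k + 1) - n1 ≤ n1 * M := by
    have h1 : ((n1 * M + r : ℕ) : ℝ) = ((n - (k + 1) : ℕ) : ℝ) := by exact_mod_cast hdm
    rw [Nat.cast_sub (by omega)] at h1
    push_cast at h1
    have h2 : (r : ℝ) ≤ n1 := by exact_mod_cast hrlt.le
    linarith
  have hM0 : (0 : ℝ) ≤ M := Nat.cast_nonneg M
  have h1 : (M : ℝ) * ((1 + 2 * δ) * k * n1) ≤ M * X := mul_le_mul_of_nonneg_left hXn hM0
  have h2 : (1 + 2 * δ) * k * ((n : ℝ) - (k + 1) - n1) ≤ (1 + 2 * δ) * k * (n1 * M) :=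
    mul_le_mul_of_nonneg_left hMn (by positivity)
  have h3 : (1 + 2 * δ) * ((n1 : ℝ) + k + 1) ≤ δ * n := by
    have h4 : (1 + 2 * δ) * ((n1 : ℝ) + k + 1) ≤ 3 * ((n1 : ℝ) + k + 1) := by
      apply mul_le_mul_of_nonneg_right _ (by positivity)
      linarith
    linarith
  have h4 : (k : ℝ) * ((1 + 2 * δ) * ((n1 : ℝ) + k + 1)) ≤ k * (δ * n) :=
    mul_le_mul_of_nonneg_left h3 hkR.le
  nlinarith

/-- For every `ε > 0` there is `δ > 0` with `f n k ≥ (1 / 2 + δ) k n` for all large `k` and all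
`n ≥ k ^ (1 + ε)`. -/
theorem low_rpow (ε : ℝ) (hε : 0 < ε) : ∃ δ : ℝ, 0 < δ ∧ ∃ k0 : ℕ, ∀ k : ℕ, k0 ≤ k →
    ∀ n : ℕ, (k : ℝ) ^ (1 + ε) ≤ n → (1 / 2 + δ) * k * n ≤ f n k := by
  set j : ℕ := ⌈2 / ε⌉₊ with hj
  have hj1 : 2 / ε ≤ j := Nat.le_ceil _
  have hjpos : (0 : ℝ) < (j : ℝ) + 1 := by positivity
  have ht : ((j : ℝ) + 1)⁻¹ ≤ ε / 2 := by
    rw [inv_le_comm₀ hjpos (by positivity)]
    have : (ε / 2)⁻¹ = 2 / ε := by rw [inv_div]
    linarith
  obtain ⟨δ, hδ, C, hC, h⟩ := low_num j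
  obtain ⟨k1, hk1⟩ := exists_nat_ge (C ^ (2 / ε) + C + 1)
  refine ⟨δ, hδ, k1, fun k hk n hn => ?_⟩
  have hkk : C ^ (2 / ε) + C + 1 ≤ (k : ℝ) := hk1.trans (by exact_mod_cast hk)
  have hCp : 0 < C ^ (2 / ε) := Real.rpow_pos_of_pos hC _
  have hkpos : (0 : ℝ) < k := by linarith
  have hk1' : (1 : ℝ) ≤ k := by linarith
  obtain ⟨Q, hQ, hQn⟩ := h k (by linarith)
  apply hQn
  refine le_trans ?_ hn
  have hQR : (Q : ℝ) ≤ (k : ℝ) ^ (ε / 2) := by
    have h1 : (Q : ℝ) ^ (j + 1) ≤ k := by exact_mod_cast hQ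
    have h2 : ((Q : ℝ) ^ (j + 1)) ^ (((j + 1 : ℕ) : ℝ)⁻¹) ≤ (k : ℝ) ^ (((j + 1 : ℕ) : ℝ)⁻¹) :=
      Real.rpow_le_rpow (by positivity) h1 (by positivity)
    rw [Real.pow_rpow_inv_natCast (Nat.cast_nonneg Q) (by omega)] at h2
    refine h2.trans (Real.rpow_le_rpow_of_exponent_le hk1' ?_)
    push_cast
    exact ht
  have hCR : C ≤ (k : ℝ) ^ (ε / 2) := by
    have h1 : (C ^ (2 / ε)) ^ (ε / 2) ≤ (k : ℝ) ^ (ε / 2) :=
      Real.rpow_le_rpow hCp.le (by linarith) (by positivity)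
    have h2 : (C ^ (2 / ε)) ^ (ε / 2) = C := by
      rw [← Real.rpow_mul hC.le]
      have : 2 / ε * (ε / 2) = 1 := by field_simp
      rw [this, Real.rpow_one]
    linarith
  have h3 : (k : ℝ) ^ (1 + ε) = (k : ℝ) ^ (ε / 2) * (k * (k : ℝ) ^ (ε / 2)) := by
    have h4 : (k : ℝ) * (k : ℝ) ^ (ε / 2) = (k : ℝ) ^ (1 + ε / 2) := by
      rw [Real.rpow_add hkpos, Real.rpow_one]
    rw [h4, ← Real.rpow_add hkpos]
    congr 1
    ring
  rw [h3]
  have h4 : (0 : ℝ) ≤ Q := Nat.cast_nonneg Q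
  have h5 : 0 ≤ (k : ℝ) ^ (ε / 2) := by positivity
  exact mul_le_mul hCR (mul_le_mul_of_nonneg_left hQR hkpos.le) (by positivity) h5

end Pool.Agent.LC0bab.Part
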