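import Pool.Agent.Lib_MP_0bab5c_t.TCrit
import Pool.Agent.Lib_MP_0bab5c_t.TLow3
import Pool.Agent.Lib_MP_0bab5c_co.LowCirc

/-!
# For which `n` is the maximum size of graphs with maximum local connectivity `k` about `k n / 2`?

`f n k` is the largest number of edges of a graph of order `n` whose maximum local connectivity
equals `k`. We show that `f(n, k) = (1/2 + o(1)) k n` exactly when `n = k ^ (1 + o(1))`: for every
`ε > 0` there are `δ > 0` and `k0` such that for all `k ≥ k0`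

* `|f n k - k n / 2| ≤ ε k n` for all `n` with `k + 2 ≤ n ≤ k ^ (1 + δ)`;
* `f n k ≥ (1 / 2 + δ) k n` for all `n ≥ k ^ (1 + ε)`.

The definitions (`Sep`, `sepNum`, `kappa`, `kappaBar`, `f`) are in
`Pool/Agent/Lib_MP_0bab5c_co/KDefs.lean`.
-/

namespace Pool.Agent.LC0bab.Thr

open Pool.Agent.LC0bab

/-- `f n k` is close to `k n / 2` up to `n = k ^ (1 + δ)`, and bounded away from it for
`n ≥ k ^ (1 + ε)`. -/
theorem result (ε : ℝ) (hε : 0 < ε) : ∃ δ : ℝ, 0 < δ ∧ ∃ k0 : ℕ, ∀ k : ℕ, k0 ≤ k → ∀ n : ℕ,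
    (k + 2 ≤ n → (n : ℝ) ≤ (k : ℝ) ^ (1 + δ) → |(f n k : ℝ) - k * n / 2| ≤ ε * k * n) ∧
      ((k : ℝ) ^ (1 + ε) ≤ n → (1 / 2 + δ) * k * n ≤ f n k) := by
  obtain ⟨d1, hd1, k1, h1⟩ := LCX.Full.near_upper ε hε
  obtain ⟨d2, hd2, k2, h2⟩ := Part.low_rpow ε hε
  obtain ⟨k3, hk3⟩ := exists_nat_ge (1 / ε)
  refine ⟨min d1 d2, lt_min hd1 hd2, max k1 (max k2 (max k3 1)), fun k hk n => ⟨?_, ?_⟩⟩
  · intro hn hn2
    have hkk1 : k1 ≤ k := le_trans (le_max_left _ _) hk
    have hkk3 : k3 ≤ k :=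
      le_trans (le_max_left _ _) (le_trans (le_max_right _ _) (le_trans (le_max_right _ _) hk))
    have hk1' : 1 ≤ k :=
      le_trans (le_max_right _ _) (le_trans (le_max_right _ _) (le_trans (le_max_right _ _) hk))
    have hk1r : (1 : ℝ) ≤ k := by exact_mod_cast hk1'
    have hnr : (0 : ℝ) ≤ n := Nat.cast_nonneg _
    rw [abs_le]
    constructor
    · have h := low_bound hn
      have h3 : (((k - 1) * n : ℕ) : ℝ) ≤ ((2 * f n k : ℕ) : ℝ) := by exact_mod_cast h
      rw [Nat.cast_mul, Nat.cast_sub hk1', Nat.cast_mul] at h3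
      push_cast at h3
      have h5 : 1 / ε ≤ k := hk3.trans (by exact_mod_cast hkk3)
      rw [div_le_iff₀ hε] at h5
      have h6 : 1 * (n : ℝ) ≤ k * ε * n := mul_le_mul_of_nonneg_right h5 hnr
      nlinarith
    · have h := h1 k hkk1 n (hn2.trans (Real.rpow_le_rpow_of_exponent_le hk1r
        (by linarith [min_le_left d1 d2])))
      linarith
  · intro hn
    have hkk2 : k2 ≤ k := le_trans (le_max_left _ _) (le_trans (le_max_right _ _) hk)
    refine le_trans ?_ (h2 k hkk2 n hn)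
    have h3 : min d1 d2 ≤ d2 := min_le_right _ _
    have h4 : (0 : ℝ) ≤ k * n := by positivity
    have h5 : min d1 d2 * (k * n) ≤ d2 * (k * n) := mul_le_mul_of_nonneg_right h3 h4
    linarith

end Pool.Agent.LC0bab.Thr
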